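import Pool.Agent.W_cae956_h7.Defs

/-!
MP_cae956_an, proofs row 562, (A2), (A3): a central commutator which is transitive is weakly mixing.
-/

set_option autoImplicit false

open MeasureTheory

namespace Pool.Agent.W_cae956_h7

section ComWM_A2

variable {G X : Type*} [Group G] [MetricSpace X] [CompactSpace X]
    [MeasurableSpace X] [BorelSpace X] [MulAction G X] [ContinuousConstSMul G X]

/-- The sections of the invariant open set. -/
def ComWM_W (e : G) (U₁ U₂ : Set X) (x : X) : Set X :=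
  {y | ∃ n : ℤ, e ^ n • x ∈ U₁ ∧ e ^ n • y ∈ U₂}

omit [CompactSpace X] [MeasurableSpace X] [BorelSpace X] in
theorem ComWM_open (e : G) {U₁ U₂ : Set X} (h2 : IsOpen U₂) (x : X) :
    IsOpen (ComWM_W e U₁ U₂ x) := by
  have h : ComWM_W e U₁ U₂ x = ⋃ (n : ℤ) (_ : e ^ n • x ∈ U₁), (fun y : X => e ^ n • y) ⁻¹' U₂ := by
    ext y
    simp only [ComWM_W, Set.mem_ofPred_eq, Set.mem_iUnion, Set.mem_preimage, exists_prop]
  rw [h]
  exact isOpen_iUnion fun n => isOpen_iUnion fun _ => h2.preimage (continuous_const_smul _)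

omit [CompactSpace X] [MeasurableSpace X] [BorelSpace X] in
theorem ComWM_open_prod (e : G) {U₁ U₂ : Set X} (h1 : IsOpen U₁) (h2 : IsOpen U₂) :
    IsOpen {p : X × X | ∃ n : ℤ, e ^ n • p.1 ∈ U₁ ∧ e ^ n • p.2 ∈ U₂} := by
  have h : {p : X × X | ∃ n : ℤ, e ^ n • p.1 ∈ U₁ ∧ e ^ n • p.2 ∈ U₂} =
      ⋃ n : ℤ, ((fun p : X × X => e ^ n • p.1) ⁻¹' U₁ ∩ (fun p : X × X => e ^ n • p.2) ⁻¹' U₂) := by
    ext p
    simp only [Set.mem_ofPred_eq, Set.mem_iUnion, Set.mem_inter_iff, Set.mem_preimage]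
  rw [h]
  refine isOpen_iUnion fun n => IsOpen.inter ?_ ?_
  · exact h1.preimage ((continuous_const_smul _).comp continuous_fst)
  · exact h2.preimage ((continuous_const_smul _).comp continuous_snd)

omit [CompactSpace X] [BorelSpace X] [MetricSpace X] [MeasurableSpace X]
  [ContinuousConstSMul G X] in
theorem ComWM_shift [MetricSpace X] (e : G) (U₁ U₂ : Set X) (k : ℤ) (x : X) :
    ComWM_W e U₁ U₂ (e ^ k • x) = (fun y : X => e ^ (-k) • y) ⁻¹' ComWM_W e U₁ U₂ x := by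
  ext y
  simp only [ComWM_W, Set.mem_ofPred_eq, Set.mem_preimage]
  constructor
  · rintro ⟨n, h1, h2⟩
    refine ⟨n + k, ?_, ?_⟩
    · rw [zpow_add, mul_smul]
      exact h1
    · rw [smul_smul, ← zpow_add, add_neg_cancel_right]
      exact h2
  · rintro ⟨n, h1, h2⟩
    refine ⟨n - k, ?_, ?_⟩
    · rw [smul_smul, ← zpow_add, sub_add_cancel]
      exact h1
    · rw [smul_smul, ← zpow_add] at h2
      exact h2

/-- The pseudometric. -/
noncomputable def ComWM_D (μ : Measure X) (e : G) (U₁ U₂ : Set X) (x x' : X) : ENNReal :=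
  μ (symmDiff (ComWM_W e U₁ U₂ x) (ComWM_W e U₁ U₂ x'))

omit [CompactSpace X] [BorelSpace X] [MetricSpace X] [ContinuousConstSMul G X] in
theorem ComWM_symm [MetricSpace X] (μ : Measure X) (e : G) (U₁ U₂ : Set X) (x x' : X) :
    ComWM_D μ e U₁ U₂ x x' = ComWM_D μ e U₁ U₂ x' x := by
  unfold ComWM_D
  rw [symmDiff_comm]

omit [CompactSpace X] [BorelSpace X] [MetricSpace X] [ContinuousConstSMul G X] in
theorem ComWM_tri [MetricSpace X] (μ : Measure X) (e : G) (U₁ U₂ : Set X) (x y z : X) :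
    ComWM_D μ e U₁ U₂ x z ≤ ComWM_D μ e U₁ U₂ x y + ComWM_D μ e U₁ U₂ y z :=
  measure_symmDiff_le _ _ _

theorem ComWM_inv (μ : Measure X) (e : G) (hμ : μ.map (fun x => e • x) = μ) (k : ℤ) :
    ∀ S : Set X, MeasurableSet S → μ ((fun y : X => e ^ k • y) ⁻¹' S) = μ S := by
  have hb : ∀ S : Set X, MeasurableSet S → μ ((fun y : X => e • y) ⁻¹' S) = μ S := by
    intro S hS
    conv_rhs => rw [← hμ]
    rw [Measure.map_apply (continuous_const_smul e).measurable hS]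
  have hm : ∀ (g : G) (S : Set X), MeasurableSet S → MeasurableSet ((fun y : X => g • y) ⁻¹' S) :=
    fun g S hS => (continuous_const_smul g).measurable hS
  induction k using Int.induction_on with
  | zero =>
    intro S _
    simp only [zpow_zero, one_smul]
    rfl
  | succ i ih =>
    intro S hS
    have h1 : (fun y : X => e ^ ((i : ℤ) + 1) • y) ⁻¹' S =
        (fun y : X => e • y) ⁻¹' ((fun y : X => e ^ (i : ℤ) • y) ⁻¹' S) := by
      ext y
      simp only [Set.mem_preimage]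
      rw [smul_smul, ← zpow_add_one]
    rw [h1, hb _ (hm _ _ hS)]
    exact ih S hS
  | pred i ih =>
    intro S hS
    have h1 : (fun y : X => e ^ (-(i : ℤ)) • y) ⁻¹' S =
        (fun y : X => e • y) ⁻¹' ((fun y : X => e ^ (-(i : ℤ) - 1) • y) ⁻¹' S) := by
      ext y
      simp only [Set.mem_preimage]
      rw [smul_smul, ← zpow_add_one, sub_add_cancel]
    rw [← ih S hS, h1, hb _ (hm _ _ hS)]

theorem ComWM_D_shift (μ : Measure X) (e : G) (hμ : μ.map (fun x => e • x) = μ)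
    {U₁ U₂ : Set X} (h2 : IsOpen U₂) (k : ℤ) (x x' : X) :
    ComWM_D μ e U₁ U₂ (e ^ k • x) (e ^ k • x') = ComWM_D μ e U₁ U₂ x x' := by
  unfold ComWM_D
  rw [ComWM_shift, ComWM_shift, ← Set.preimage_symmDiff]
  exact ComWM_inv μ e hμ (-k) _
    ((ComWM_open e h2 x).measurableSet.symmDiff (ComWM_open e h2 x').measurableSet)

theorem ComWM_W_shift (μ : Measure X) (e : G) (hμ : μ.map (fun x => e • x) = μ)
    {U₁ U₂ : Set X} (h2 : IsOpen U₂) (k : ℤ) (x : X) :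
    μ (ComWM_W e U₁ U₂ (e ^ k • x)) = μ (ComWM_W e U₁ U₂ x) := by
  rw [ComWM_shift]
  exact ComWM_inv μ e hμ (-k) _ (ComWM_open e h2 x).measurableSet

theorem ComWM_lsc (μ : Measure X) [IsFiniteMeasure μ] (e : G) {U₁ U₂ : Set X} (h1 : IsOpen U₁)
    (h2 : IsOpen U₂) (x : X) {ε : ENNReal} (hε : ε ≠ 0) :
    ∀ᶠ x' in nhds x, μ (ComWM_W e U₁ U₂ x \ ComWM_W e U₁ U₂ x') < ε := by
  obtain ⟨K, hKW, hK, hKε⟩ := (ComWM_open (U₁ := U₁) e h2 x).measurableSet.exists_isCompact_sdiff_lt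
    (measure_ne_top μ _) hε
  have hsub : ({x} : Set X) ×ˢ K ⊆
      {p : X × X | ∃ n : ℤ, e ^ n • p.1 ∈ U₁ ∧ e ^ n • p.2 ∈ U₂} := by
    rintro ⟨a, b⟩ ⟨ha, hb⟩
    have ha : a = x := ha
    subst ha
    exact hKW hb
  obtain ⟨u, v, hu, hv, hxu, hKv, huv⟩ := generalized_tube_lemma isCompact_singleton hK
    (ComWM_open_prod e h1 h2) hsub
  filter_upwards [hu.mem_nhds (hxu rfl)] with x' hx'
  refine (measure_mono ?_).trans_lt hKε
  intro y hy
  refine ⟨hy.1, fun hyK => hy.2 ?_⟩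
  exact huv (Set.mk_mem_prod hx' (hKv hyK))

/-- `x` has a dense orbit. -/
def ComWM_T (e : G) (x : X) : Prop := Dense (Set.range fun n : ℤ => e ^ n • x)

omit [CompactSpace X] [MeasurableSpace X] [BorelSpace X] in
theorem ComWM_T_comm {e g : G} (hg : g * e = e * g) {x : X} (hx : ComWM_T e x) :
    ComWM_T e (g • x) := by
  have h := (MulAction.surjective (β := X) g).denseRange.dense_image (continuous_const_smul g) hx
  unfold ComWM_T
  have h1 : (fun y : X => g • y) '' (Set.range fun n : ℤ => e ^ n • x) =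
      Set.range fun n : ℤ => e ^ n • g • x := by
    rw [← Set.range_comp]
    congr 1
    funext n
    have h2 : g * e ^ n = e ^ n * g := (Commute.zpow_right (show Commute g e from hg) n)
    simp only [Function.comp_apply, smul_smul, h2]
  rw [h1] at h
  exact h

omit [CompactSpace X] [MeasurableSpace X] [BorelSpace X] in
theorem ComWM_near {e : G} {x : X} (hx : ComWM_T e x) {p : X → Prop} {y : X}
    (hp : ∀ᶠ z in nhds y, p z) : ∃ n : ℤ, p (e ^ n • x) := by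
  obtain ⟨N, hN, hNo, hy⟩ := eventually_nhds_iff.1 hp
  obtain ⟨z, hzN, hz⟩ := hx.inter_open_nonempty N hNo ⟨y, hy⟩
  obtain ⟨n, rfl⟩ := hz
  exact ⟨n, hN _ hzN⟩

theorem ComWM_max (μ : Measure X) [IsFiniteMeasure μ] (e : G)
    (hμ : μ.map (fun x => e • x) = μ) {U₁ U₂ : Set X} (h1 : IsOpen U₁)
    (h2 : IsOpen U₂) {x0 : X} (hx0 : ComWM_T e x0) (x : X) :
    μ (ComWM_W e U₁ U₂ x) ≤ μ (ComWM_W e U₁ U₂ x0) := by
  refine ENNReal.le_of_forall_pos_le_add fun ε hε _ => ?_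
  obtain ⟨n, hn⟩ := ComWM_near hx0
    (ComWM_lsc μ e h1 h2 x (ε := (ε : ENNReal)) (by exact_mod_cast hε.ne'))
  have h3 : μ (ComWM_W e U₁ U₂ x) ≤ μ (ComWM_W e U₁ U₂ (e ^ n • x0)) +
      μ (ComWM_W e U₁ U₂ x \ ComWM_W e U₁ U₂ (e ^ n • x0)) := by
    refine (measure_mono ?_).trans (measure_union_le _ _)
    intro y hy
    by_cases hy2 : y ∈ ComWM_W e U₁ U₂ (e ^ n • x0)
    · exact Or.inl hy2
    · exact Or.inr ⟨hy, hy2⟩
  rw [ComWM_W_shift μ e hμ h2] at h3
  exact h3.trans (add_le_add le_rfl hn.le)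

theorem ComWM_close (μ : Measure X) [IsFiniteMeasure μ] (e : G)
    (hμ : μ.map (fun x => e • x) = μ) {U₁ U₂ : Set X} (h1 : IsOpen U₁)
    (h2 : IsOpen U₂) {x0 : X} (hx0 : ComWM_T e x0) {ε : ENNReal} (hε : ε ≠ 0) :
    ∀ᶠ x in nhds x0, ComWM_D μ e U₁ U₂ x x0 < ε := by
  have hε2 : ε / 2 ≠ 0 := by
    rw [Ne, ENNReal.div_eq_zero_iff]
    rintro (h | h)
    · exact hε h
    · exact absurd h (by norm_num)
  filter_upwards [ComWM_lsc μ e h1 h2 x0 hε2] with x hx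
  have hA := (ComWM_open (U₁ := U₁) e h2 x).measurableSet
  have hB := (ComWM_open (U₁ := U₁) e h2 x0).measurableSet
  have h3 : μ (ComWM_W e U₁ U₂ x \ ComWM_W e U₁ U₂ x0) ≤
      μ (ComWM_W e U₁ U₂ x0 \ ComWM_W e U₁ U₂ x) := by
    have h4 := measure_inter_add_sdiff (μ := μ) (ComWM_W e U₁ U₂ x) hB
    have h5 := measure_inter_add_sdiff (μ := μ) (ComWM_W e U₁ U₂ x0) hA
    have h6 := ComWM_max μ e hμ h1 h2 hx0 x
    rw [← h4, ← h5, Set.inter_comm (ComWM_W e U₁ U₂ x0)] at h6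
    exact (ENNReal.add_le_add_iff_left (measure_ne_top μ _)).1 h6
  unfold ComWM_D
  rw [measure_symmDiff_eq hA.nullMeasurableSet hB.nullMeasurableSet]
  calc μ (ComWM_W e U₁ U₂ x \ ComWM_W e U₁ U₂ x0) + μ (ComWM_W e U₁ U₂ x0 \ ComWM_W e U₁ U₂ x)
      < ε / 2 + ε / 2 := ENNReal.add_lt_add (h3.trans_lt hx) hx
    _ = ε := ENNReal.add_halves ε

theorem ComWM_comm0 (μ : Measure X) [IsFiniteMeasure μ] (a b e : G)
    (hμ : μ.map (fun x => e • x) = μ) {U₁ U₂ : Set X} (h1 : IsOpen U₁)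
    (h2 : IsOpen U₂) (hae : a * e = e * a) (hbe : b * e = e * b) {x0 : X} (hx0 : ComWM_T e x0) :
    ComWM_D μ e U₁ U₂ (a • b • x0) (b • a • x0) = 0 := by
  have hz : ∀ (g : G), g * e = e * g → ∀ (k : ℤ) (x : X), g • e ^ k • x = e ^ k • g • x := by
    intro g hg k x
    have h : g * e ^ k = e ^ k * g := (Commute.zpow_right (show Commute g e from hg) k)
    rw [smul_smul, smul_smul, h]
  have hax := ComWM_T_comm hae hx0
  have hbx := ComWM_T_comm hbe hx0
  have habx := ComWM_T_comm hae hbx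
  have hbax := ComWM_T_comm hbe hax
  refine le_antisymm ?_ bot_le
  refine ENNReal.le_of_forall_pos_le_add fun ε hε _ => ?_
  have hε4 : (ε : ENNReal) / 4 ≠ 0 := by
    rw [Ne, ENNReal.div_eq_zero_iff]
    rintro (h | h)
    · exact hε.ne' (by exact_mod_cast h)
    · exact absurd h (by norm_num)
  obtain ⟨l, hl1, hl2⟩ := ComWM_near hx0
    ((ComWM_close μ e hμ h1 h2 hbx hε4).and
      ((continuous_const_smul a).continuousAt.eventually (ComWM_close μ e hμ h1 h2 habx hε4)))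
  obtain ⟨m, hm1, hm2⟩ := ComWM_near hx0
    ((ComWM_close μ e hμ h1 h2 hax hε4).and
      ((continuous_const_smul b).continuousAt.eventually (ComWM_close μ e hμ h1 h2 hbax hε4)))
  have e1 : ComWM_D μ e U₁ U₂ (e ^ l • e ^ m • x0) (a • b • x0) ≤ (ε : ENNReal) / 4 + ε / 4 := by
    refine (ComWM_tri μ e U₁ U₂ _ (e ^ l • a • x0) _).trans (add_le_add ?_ ?_)
    · rw [ComWM_D_shift μ e hμ h2]
      exact hm1.le
    · rw [← hz a hae]
      exact hl2.le
  have e2 : ComWM_D μ e U₁ U₂ (e ^ l • e ^ m • x0) (b • a • x0) ≤ (ε : ENNReal) / 4 + ε / 4 := by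
    have h3 : e ^ l • e ^ m • x0 = e ^ m • e ^ l • x0 := by
      rw [smul_smul, smul_smul, ← zpow_add, ← zpow_add, add_comm]
    rw [h3]
    refine (ComWM_tri μ e U₁ U₂ _ (e ^ m • b • x0) _).trans (add_le_add ?_ ?_)
    · rw [ComWM_D_shift μ e hμ h2]
      exact hl1.le
    · rw [← hz b hbe]
      exact hm2.le
  refine (ComWM_tri μ e U₁ U₂ _ (e ^ l • e ^ m • x0) _).trans ?_
  rw [ComWM_symm μ e U₁ U₂ (a • b • x0)]
  refine (add_le_add e1 e2).trans ?_
  rw [zero_add]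
  have h4 : (ε : ENNReal) / 4 + ε / 4 + (ε / 4 + ε / 4) = ε := by
    have h5 : (ε : ENNReal) / 4 + ε / 4 + (ε / 4 + ε / 4) = ((4 : ENNReal)) * (ε / 4) := by ring
    rw [h5]
    exact ENNReal.mul_div_cancel (by norm_num) (by norm_num)
  exact h4.le

end ComWM_A2

/-- (A2) of proofs row 562.  `T0` = points with dense `e`-orbit, `d` the pseudometric
`μ (W_x \ W_x') + μ (W_x' \ W_x)`; `W = ⋃ n, (e^n × e^n) (U₁ × U₂)`. -/
theorem wm_of_commutator {G X : Type*} [Group G] [MetricSpace X] [CompactSpace X]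
    [MeasurableSpace X] [BorelSpace X] [MulAction G X] [ContinuousConstSMul G X]
    (μ : Measure X) [IsFiniteMeasure μ] (a b e : G) (hμ : μ.map (fun x => e • x) = μ)
    (hfull : ∀ O : Set X, IsOpen O → O.Nonempty → 0 < μ O)
    (hae : a * e = e * a) (hbe : b * e = e * b) (hab : a * b = e * (b * a))
    (htr : ∃ x : X, Dense (Set.range fun n : ℤ => e ^ n • x)) : WM X e := by
  have hx0 : ∃ x : X, ComWM_T e x := htr
  obtain ⟨xs, hxs⟩ := hx0
  intro U₁ V₁ U₂ V₂ hU₁ hU₁n hV₁ hV₁n hU₂ hU₂n hV₂ hV₂n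
  -- d (e y) y = 0 for transitive y
  have hey : ∀ y : X, ComWM_T e y → ComWM_D μ e U₁ U₂ (e • y) y = 0 := by
    intro y hy
    have hai : a⁻¹ * e = e * a⁻¹ := (Commute.inv_left (show Commute a e from hae))
    have hbi : b⁻¹ * e = e * b⁻¹ := (Commute.inv_left (show Commute b e from hbe))
    have hx0 : ComWM_T e (a⁻¹ • b⁻¹ • y) := ComWM_T_comm hai (ComWM_T_comm hbi hy)
    have h := ComWM_comm0 μ a b e hμ hU₁ hU₂ hae hbe hx0
    have h1 : b • a • a⁻¹ • b⁻¹ • y = y := by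
      rw [smul_inv_smul, smul_inv_smul]
    have h2 : a • b • a⁻¹ • b⁻¹ • y = e • y := by
      have h3 : a • b • a⁻¹ • b⁻¹ • y = (a * b) • a⁻¹ • b⁻¹ • y := by rw [mul_smul]
      rw [h3, hab, mul_smul, mul_smul, h1]
    rw [h1, h2] at h
    exact h
  have hsucc : ∀ (k : ℤ) (y : X), ComWM_T e y →
      ComWM_D μ e U₁ U₂ (e ^ (k + 1) • y) (e ^ k • y) = 0 := by
    intro k y hy
    have h1 : e ^ (k + 1) • y = e ^ k • e • y := by rw [zpow_add_one, mul_smul]
    rw [h1, ComWM_D_shift μ e hμ hU₂]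
    exact hey y hy
  have hpow : ∀ y : X, ComWM_T e y → ∀ n : ℤ, ComWM_D μ e U₁ U₂ (e ^ n • y) y = 0 := by
    intro y hy n
    induction n using Int.induction_on with
    | zero =>
      rw [zpow_zero, one_smul]
      unfold ComWM_D
      rw [symmDiff_self]
      exact measure_empty
    | succ i ih =>
      refine le_antisymm ?_ bot_le
      refine (ComWM_tri μ e U₁ U₂ _ (e ^ (i : ℤ) • y) _).trans ?_
      rw [ih, hsucc _ _ hy, add_zero]
    | pred i ih =>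
      refine le_antisymm ?_ bot_le
      refine (ComWM_tri μ e U₁ U₂ _ (e ^ (-(i : ℤ)) • y) _).trans ?_
      have h := hsucc (-(i : ℤ) - 1) y hy
      rw [sub_add_cancel] at h
      rw [ih, ComWM_symm, h, add_zero]
  have hpos : ∀ y : X, ComWM_T e y → 0 < μ (ComWM_W e U₁ U₂ y) := by
    intro y hy
    refine lt_of_lt_of_le ?_ (ComWM_max μ e hμ hU₁ hU₂ hy xs)
    refine hfull _ (ComWM_open e hU₂ xs) ?_
    obtain ⟨u, hu⟩ := hU₁n
    obtain ⟨w, hw⟩ := hU₂n
    obtain ⟨n, hn⟩ := ComWM_near hxs (hU₁.mem_nhds hu)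
    exact ⟨e ^ (-n) • w, n, hn, by rw [smul_smul, ← zpow_add, add_neg_cancel, zpow_zero, one_smul]
                                   exact hw⟩
  have hdense : ∀ y : X, ComWM_T e y → ∀ O : Set X, IsOpen O → O.Nonempty →
      (ComWM_W e U₁ U₂ y ∩ O).Nonempty := by
    intro y hy O hO hOn
    have hWn : (ComWM_W e U₁ U₂ y).Nonempty := nonempty_of_measure_ne_zero (hpos y hy).ne'
    obtain ⟨w, hw⟩ := hWn
    obtain ⟨o, ho⟩ := hOn
    obtain ⟨i, hi⟩ := ComWM_near hxs ((ComWM_open e hU₂ y).mem_nhds hw)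
    obtain ⟨j, hj⟩ := ComWM_near hxs (hO.mem_nhds ho)
    have hne : (ComWM_W e U₁ U₂ (e ^ (j - i) • y) ∩ O).Nonempty := by
      refine ⟨e ^ j • xs, ?_, hj⟩
      rw [ComWM_shift]
      show e ^ (-(j - i)) • e ^ j • xs ∈ ComWM_W e U₁ U₂ y
      rw [smul_smul, ← zpow_add, show -(j - i) + j = i by ring]
      exact hi
    have hpos2 := hfull _ ((ComWM_open e hU₂ (e ^ (j - i) • y)).inter hO) hne
    have hd := hpow y hy (j - i)
    have hle : μ (ComWM_W e U₁ U₂ (e ^ (j - i) • y) ∩ O) ≤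
        μ (ComWM_W e U₁ U₂ y ∩ O) + ComWM_D μ e U₁ U₂ (e ^ (j - i) • y) y := by
      refine (measure_mono ?_).trans (measure_union_le _ _)
      rintro z ⟨hz1, hz2⟩
      by_cases hz3 : z ∈ ComWM_W e U₁ U₂ y
      · exact Or.inl ⟨hz3, hz2⟩
      · exact Or.inr (Or.inl ⟨hz1, hz3⟩)
    rw [hd, add_zero] at hle
    exact nonempty_of_measure_ne_zero (lt_of_lt_of_le hpos2 hle).ne'
  obtain ⟨v, hv⟩ := hV₁n
  obtain ⟨j, hj⟩ := ComWM_near hxs (hV₁.mem_nhds hv)
  have hj' : ComWM_T e (e ^ j • xs) :=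
    ComWM_T_comm ((Commute.zpow_left (Commute.refl e) j)) hxs
  obtain ⟨z, ⟨n, hn1, hn2⟩, hz⟩ := hdense _ hj' V₂ hV₂ hV₂n
  refine ⟨-n, ⟨_, hn1, ?_⟩, ⟨_, hn2, ?_⟩⟩
  · rw [smul_smul (e ^ (-n)), ← zpow_add, neg_add_cancel, zpow_zero, one_smul]
    exact hj
  · rw [smul_smul, ← zpow_add, neg_add_cancel, zpow_zero, one_smul]
    exact hz

/-- (A3) of proofs row 562. -/
theorem wm_of_tra {G X : Type*} [Group G] [TopologicalSpace X] [MulAction G X]
    [ContinuousConstSMul G X] {e b : G} (he : WM X e) (hbe : b * e = e * b) (hb : Tra X b) :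
    WM X b := by
  intro U₁ V₁ U₂ V₂ hU₁ hU₁n hV₁ hV₁n hU₂ hU₂n hV₂ hV₂n
  obtain ⟨k, ⟨x, hx1, hx2⟩, ⟨y, hy1, hy2⟩⟩ := he U₁ U₂ V₁ V₂ hU₁ hU₁n hU₂ hU₂n hV₁ hV₁n hV₂ hV₂n
  obtain ⟨n, z, ⟨hz1, hz2⟩, hz3, hz4⟩ := hb (U₁ ∩ (fun x => e ^ k • x) ⁻¹' U₂)
    (V₁ ∩ (fun x => e ^ k • x) ⁻¹' V₂) (hU₁.inter (hU₂.preimage (continuous_const_smul _)))
    ⟨x, hx1, hx2⟩ (hV₁.inter (hV₂.preimage (continuous_const_smul _))) ⟨y, hy1, hy2⟩
  refine ⟨n, ⟨z, hz1, hz3⟩, ⟨e ^ k • z, hz2, ?_⟩⟩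
  have h1 : b ^ n * e ^ k = e ^ k * b ^ n := (Commute.zpow_zpow (show Commute b e from hbe) n k)
  rw [smul_smul, h1, ← smul_smul]
  exact hz4

/-- (A0) of proofs row 562. -/
theorem exists_central_commutator {G : Type*} [Group G] [Group.IsNilpotent G]
    (hG : ∃ g h : G, g * h ≠ h * g) :
    ∃ a b e : G, e ≠ 1 ∧ (∀ g, g * e = e * g) ∧ a * b = e * (b * a) := by
  have h0 : ∀ x : G, x ∈ Subgroup.upperCentralSeries G 1 ↔ ∀ y : G, x * y * x⁻¹ * y⁻¹ = 1 := by
    intro x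
    rw [Subgroup.mem_upperCentralSeries_succ_iff]
    refine forall_congr' fun y => ?_
    rw [Subgroup.upperCentralSeries_zero, Subgroup.mem_bot, commutatorElement_def]
  have h1 : ∀ x : G, x ∈ Subgroup.upperCentralSeries G 1 → ∀ y : G, x * y = y * x := by
    intro x hx y
    have h := (h0 x).1 hx y
    rwa [mul_inv_eq_one, mul_inv_eq_iff_eq_mul] at h
  by_cases h2 : ∀ x : G, x ∈ Subgroup.upperCentralSeries G 2 → x ∈ Subgroup.upperCentralSeries G 1
  · exfalso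
    obtain ⟨g, h, hgh⟩ := hG
    have h3 : ∀ n : ℕ, ∀ x : G, x ∈ Subgroup.upperCentralSeries G n →
        x ∈ Subgroup.upperCentralSeries G 1 := by
      intro n
      induction n with
      | zero =>
        intro x hx
        rw [Subgroup.upperCentralSeries_zero, Subgroup.mem_bot] at hx
        rw [hx]
        exact one_mem _
      | succ n ih =>
        intro x hx
        apply h2
        rw [Subgroup.mem_upperCentralSeries_succ_iff] at hx ⊢
        intro y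
        exact ih _ (hx y)
    obtain ⟨n, hn⟩ := Group.IsNilpotent.nilpotent G
    exact hgh (h1 g (h3 n g (by rw [hn]; exact Subgroup.mem_top g)) h)
  · push Not at h2
    obtain ⟨a, ha2, ha1⟩ := h2
    rw [h0] at ha1
    push Not at ha1
    obtain ⟨b, hb⟩ := ha1
    have hc : a * b * a⁻¹ * b⁻¹ ∈ Subgroup.upperCentralSeries G 1 := by
      have h := (Subgroup.mem_upperCentralSeries_succ_iff.1 ha2) b
      rwa [commutatorElement_def] at h
    refine ⟨a, b, a * b * a⁻¹ * b⁻¹, hb, fun g => (h1 _ hc g).symm, ?_⟩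
    group

end Pool.Agent.W_cae956_h7
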