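import Mathlib

/-!
MP_cae956_an, proofs row 562: joint transitivity for nilpotent groups.
Definitions: return times, transitive and weakly mixing elements, chains of subgroups (Part B).
-/

set_option autoImplicit false

namespace Pool.Agent.W_cae956_h7

section dyn

variable {G X : Type*} [Group G] [TopologicalSpace X] [MulAction G X]

/-- Return times. -/
def Ret (a : G) (U V : Set X) : Set ℤ := {n | ∃ x ∈ U, a ^ n • x ∈ V}

variable (X) in
/-- Topological transitivity of the element `a`. -/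
def Tra (a : G) : Prop := ∀ U V : Set X, IsOpen U → U.Nonempty → IsOpen V → V.Nonempty →
  ∃ n : ℤ, n ∈ Ret a U V

variable (X) in
/-- Weak mixing of the element `a`. -/
def WM (a : G) : Prop := ∀ U₁ V₁ U₂ V₂ : Set X, IsOpen U₁ → U₁.Nonempty → IsOpen V₁ →
  V₁.Nonempty → IsOpen U₂ → U₂.Nonempty → IsOpen V₂ → V₂.Nonempty →
  ∃ n : ℤ, n ∈ Ret a U₁ V₁ ∧ n ∈ Ret a U₂ V₂

end dyn

/-- A decrease in the Dershowitz-Manna order. -/
theorem dm_lt {R α : Type*} [LinearOrder R] [DecidableEq α] (S S' : Finset (R × α)) (r₀ : R)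
    (c₀ : α) (τ : α → α) (hτ : Function.Injective τ) (h₀ : (r₀, c₀) ∈ S)
    (h : ∀ x ∈ S', x.1 < r₀ ∨ (x.1 = r₀ ∧ (r₀, τ x.2) ∈ S ∧ τ x.2 ≠ c₀) ∨ (r₀ < x.1 ∧ x ∈ S)) :
    Multiset.IsDershowitzMannaLT (S'.val.map Prod.fst) (S.val.map Prod.fst) := by
  classical
  set φ : R × α → R × α := fun x => if x.1 = r₀ then (r₀, τ x.2) else x with hφ
  have hφ1 : ∀ x, (φ x).1 = x.1 := by
    intro x
    simp only [hφ]
    split_ifs with h1
    · exact h1.symm
    · rfl
  have hφinj : Function.Injective φ := by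
    rintro x y hxy
    have h1 : x.1 = y.1 := by rw [← hφ1 x, hxy, hφ1 y]
    simp only [hφ] at hxy
    by_cases hx : x.1 = r₀
    · rw [if_pos hx, if_pos (h1 ▸ hx)] at hxy
      exact Prod.ext h1 (hτ (Prod.ext_iff.1 hxy).2)
    · rw [if_neg hx, if_neg (h1 ▸ hx)] at hxy
      exact hxy
  set P := S'.filter fun x => r₀ ≤ x.1 with hP
  set Q := S'.filter fun x => ¬ r₀ ≤ x.1 with hQ
  set T := P.image φ with hT
  have hTS : T ⊆ S := by
    intro y hy
    obtain ⟨x, hx, rfl⟩ := Finset.mem_image.1 hy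
    obtain ⟨hx1, hx2⟩ := Finset.mem_filter.1 hx
    rcases h x hx1 with h1 | ⟨h1, h2, -⟩ | ⟨h1, h2⟩
    · exact absurd h1 (not_lt.2 hx2)
    · simp only [hφ, if_pos h1]
      exact h2
    · simp only [hφ, if_neg h1.ne']
      exact h2
  have hT0 : (r₀, c₀) ∉ T := by
    intro hy
    obtain ⟨x, hx, hxe⟩ := Finset.mem_image.1 hy
    obtain ⟨hx1, hx2⟩ := Finset.mem_filter.1 hx
    have hx3 : x.1 = r₀ := by rw [← hφ1 x, hxe]
    rcases h x hx1 with h1 | ⟨h1, h2, h3⟩ | ⟨h1, h2⟩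
    · exact absurd h1 (not_lt.2 hx2)
    · simp only [hφ, if_pos h1] at hxe
      exact h3 (Prod.ext_iff.1 hxe).2
    · exact absurd hx3 h1.ne'
  refine ⟨P.val.map Prod.fst, Q.val.map Prod.fst, (S \ T).val.map Prod.fst, ?_, ?_, ?_, ?_⟩
  · intro h0
    have h1 : (r₀, c₀) ∈ S \ T := Finset.mem_sdiff.2 ⟨h₀, hT0⟩
    have h2 : r₀ ∈ (S \ T).val.map Prod.fst := Multiset.mem_map.2 ⟨_, h1, rfl⟩
    rw [h0] at h2
    exact absurd h2 (Multiset.notMem_zero _)
  · rw [← Multiset.map_add]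
    congr 1
    rw [hP, hQ, Finset.filter_val, Finset.filter_val, Multiset.filter_add_not]
  · have h1 : P.val.map Prod.fst = T.val.map Prod.fst := by
      rw [hT, Finset.image_val_of_injOn hφinj.injOn, Multiset.map_map]
      exact Multiset.map_congr rfl fun x _ => (hφ1 x).symm
    rw [h1, ← Multiset.map_add]
    congr 1
    have h2 := Finset.sdiff_union_of_subset hTS
    have h3 : (S \ T).disjUnion T Finset.sdiff_disjoint = S := by
      rw [Finset.disjUnion_eq_union, h2]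
    conv_lhs => rw [← h3]
    rw [Finset.disjUnion_val, add_comm]
  · intro y hy
    obtain ⟨x, hx, rfl⟩ := Multiset.mem_map.1 hy
    have hx2 : ¬ r₀ ≤ x.1 := (Finset.mem_filter.1 hx).2
    exact ⟨r₀, Multiset.mem_map.2 ⟨_, Finset.mem_sdiff.2 ⟨h₀, hT0⟩, rfl⟩, not_le.1 hx2⟩

/-- A chain of subgroups; commutators drop by one. -/
structure Chain (S : Type*) [Group S] where
  L : ℕ → Subgroup S
  mono : ∀ j, L j ≤ L (j + 1)
  comm : ∀ j, ∀ x ∈ L (j + 1), ∀ y ∈ L (j + 1), x * y * x⁻¹ * y⁻¹ ∈ L j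

namespace Chain

variable {S : Type*} [Group S] (C : Chain S)

/-- The weight of an element. -/
noncomputable def wt (x : S) : ℕ := sInf {j | x ∈ C.L j}

/-- The class of an element: its weight, and its coset modulo the preceding subgroup. -/
noncomputable def cls (x : S) : ℕ × Set S := (C.wt x, {z | z * x⁻¹ ∈ C.L (C.wt x - 1)})

open Classical in
/-- The multiset of the weights of the different classes of a family. -/
noncomputable def M {ι : Type} [Fintype ι] (g : ι → S) : Multiset ℕ :=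
  (Finset.univ.image fun i => C.cls (g i)).val.map Prod.fst

theorem monotone : Monotone C.L := monotone_nat_of_le_succ C.mono

theorem mem_wt {x : S} (hx : ∃ j, x ∈ C.L j) : x ∈ C.L (C.wt x) := Nat.sInf_mem hx

theorem wt_le {x : S} {j : ℕ} (hx : x ∈ C.L j) : C.wt x ≤ j := Nat.sInf_le hx

theorem notMem_of_lt {x : S} {j : ℕ} (hj : j < C.wt x) : x ∉ C.L j := fun h =>
  absurd (C.wt_le h) (not_le.2 hj)

theorem one_le_wt {x : S} (hx : ∃ j, x ∈ C.L j) (h0 : x ∉ C.L 0) : 1 ≤ C.wt x := by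
  by_contra h
  have h1 := C.mem_wt hx
  rw [show C.wt x = 0 by omega] at h1
  exact h0 h1

/-- Conjugation by elements of `L (j+1)` preserves `L j`. -/
theorem conj {j : ℕ} {x z : S} (hx : x ∈ C.L (j + 1)) (hz : z ∈ C.L j) :
    x * z * x⁻¹ ∈ C.L j := by
  have h := C.comm j x hx z (C.mono j hz)
  have h2 := (C.L j).mul_mem h hz
  rwa [inv_mul_cancel_right] at h2

/-- The Dershowitz-Manna step: (B1) of proofs row 562. -/
theorem dm {ι κ : Type} [Fintype ι] [Fintype κ] (g : ι → S) (u : κ → S) (i₁ : ι)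
    (hg : ∀ i, ∃ j, g i ∈ C.L j) (hg0 : ∀ i, g i ∉ C.L 0)
    (hmin : ∀ i, C.wt (g i₁) ≤ C.wt (g i))
    (hu : ∀ k, ∃ i, u k * (g i * (g i₁)⁻¹)⁻¹ ∈ C.L (C.wt (g i) - 1)) :
    Multiset.IsDershowitzMannaLT (C.M u) (C.M g) := by
  classical
  set r := C.wt (g i₁) with hr
  have hτ : Function.Injective (fun c : Set S => (fun z => z * g i₁) '' c) :=
    Set.image_injective.2 (mul_left_injective (g i₁))
  unfold M
  refine dm_lt _ _ r (C.cls (g i₁)).2 _ hτ (Finset.mem_image.2 ⟨i₁, Finset.mem_univ _, rfl⟩) ?_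
  intro x hx
  obtain ⟨k, -, rfl⟩ := Finset.mem_image.1 hx
  obtain ⟨i, hi⟩ := hu k
  have hw : 1 ≤ C.wt (g i) := C.one_le_wt (hg i) (hg0 i)
  obtain ⟨w, hw'⟩ : ∃ w, C.wt (g i) = w + 1 := ⟨C.wt (g i) - 1, by omega⟩
  have hgi : g i ∈ C.L (w + 1) := hw' ▸ C.mem_wt (hg i)
  have hgi' : g i ∉ C.L w := C.notMem_of_lt (by omega)
  rw [hw', Nat.add_sub_cancel] at hi
  have hmi := hmin i
  have hg1 : g i₁ ∈ C.L r := C.mem_wt (hg i₁)
  have hg1' : g i₁ ∈ C.L (w + 1) := C.monotone (by omega) hg1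
  have hgg : g i * (g i₁)⁻¹ ∈ C.L (w + 1) := (C.L _).mul_mem hgi ((C.L _).inv_mem hg1')
  have huk : u k ∈ C.L (w + 1) := by
    have h := (C.L (w + 1)).mul_mem (C.mono w hi) hgg
    rwa [inv_mul_cancel_right] at h
  -- membership in the class of `u k`
  have hcl : ∀ z, z * (u k)⁻¹ ∈ C.L w ↔ z * g i₁ * (g i)⁻¹ ∈ C.L w := by
    intro z
    have e : z * (u k)⁻¹ = z * g i₁ * (g i)⁻¹ * (u k * (g i * (g i₁)⁻¹)⁻¹)⁻¹ := by group
    rw [e]
    exact (C.L w).mul_mem_cancel_right ((C.L w).inv_mem hi)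
  rcases eq_or_lt_of_le hmi with h1 | h1
  · -- same weight as `g i₁`
    rcases lt_trichotomy (C.wt (u k)) r with h2 | h2 | h2
    · exact Or.inl h2
    · right; left
      have hr' : r = w + 1 := by omega
      have e1 : (fun z => z * g i₁) '' (C.cls (u k)).2 = (C.cls (g i)).2 := by
        ext z
        constructor
        · rintro ⟨y, hy, rfl⟩
          have hy : y * (u k)⁻¹ ∈ C.L (C.wt (u k) - 1) := hy
          show y * g i₁ * (g i)⁻¹ ∈ C.L (C.wt (g i) - 1)
          rw [hw', Nat.add_sub_cancel]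
          rw [h2, hr', Nat.add_sub_cancel] at hy
          exact (hcl y).1 hy
        · intro hz
          have hz : z * (g i)⁻¹ ∈ C.L (C.wt (g i) - 1) := hz
          rw [hw', Nat.add_sub_cancel] at hz
          refine ⟨z * (g i₁)⁻¹, ?_, inv_mul_cancel_right _ _⟩
          show z * (g i₁)⁻¹ * (u k)⁻¹ ∈ C.L (C.wt (u k) - 1)
          rw [h2, hr', Nat.add_sub_cancel]
          refine (hcl _).2 ?_
          rwa [inv_mul_cancel_right]
      refine ⟨h2, ?_, ?_⟩
      · show (r, (fun z => z * g i₁) '' (C.cls (u k)).2) ∈ _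
        rw [e1]
        refine Finset.mem_image.2 ⟨i, Finset.mem_univ _, ?_⟩
        exact Prod.ext h1.symm rfl
      · show (fun z => z * g i₁) '' (C.cls (u k)).2 ≠ (C.cls (g i₁)).2
        rw [e1]
        intro h3
        have h4 : g i ∈ (C.cls (g i)).2 := by
          show g i * (g i)⁻¹ ∈ C.L (C.wt (g i) - 1)
          rw [mul_inv_cancel]
          exact one_mem _
        rw [h3] at h4
        have h4 : g i * (g i₁)⁻¹ ∈ C.L (C.wt (g i₁) - 1) := h4
        rw [← hr, hr', Nat.add_sub_cancel] at h4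
        refine C.notMem_of_lt (x := u k) (j := w) (by omega) ?_
        have h5 := (C.L w).mul_mem hi h4
        rwa [inv_mul_cancel_right] at h5
    · exfalso
      have := C.wt_le huk
      omega
  · -- larger weight
    right; right
    have hg1'' : g i₁ ∈ C.L w := C.monotone (by omega) hg1
    have hcl2 : ∀ z, z * g i₁ * (g i)⁻¹ ∈ C.L w ↔ z * (g i)⁻¹ ∈ C.L w := by
      intro z
      have e : z * g i₁ * (g i)⁻¹ = z * (g i)⁻¹ * (g i * g i₁ * (g i)⁻¹) := by group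
      rw [e]
      exact (C.L w).mul_mem_cancel_right (C.conj hgi hg1'')
    have hwt : C.wt (u k) = w + 1 := by
      refine le_antisymm (C.wt_le huk) ?_
      by_contra h2
      have h3 : u k ∈ C.L w := C.monotone (by omega) (C.mem_wt ⟨_, huk⟩)
      apply hgi'
      have h4 := (C.L w).inv_mem (((hcl2 1).1 ((hcl 1).1 (by
        rw [one_mul]
        exact (C.L w).inv_mem h3))))
      rwa [one_mul, inv_inv] at h4
    have hcc : C.cls (u k) = C.cls (g i) := by
      unfold cls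
      rw [hwt, hw', Nat.add_sub_cancel]
      refine Prod.ext rfl ?_
      ext z
      exact (hcl z).trans (hcl2 z)
    refine ⟨by show r < C.wt (u k); omega, ?_⟩
    rw [hcc]
    exact Finset.mem_image.2 ⟨i, Finset.mem_univ _, rfl⟩

end Chain

/-- Chains of functions modulo constants. -/
structure NC (Ω G : Type*) [Group G] where
  N : ℕ → Subgroup (Ω → G)
  zero : N 0 = ⊥
  mono : ∀ j, N j ≤ N (j + 1)
  cc : ∀ j, ∀ x ∈ N (j + 1), ∀ y ∈ N (j + 1), x * y * x⁻¹ * y⁻¹ ∈ N j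
  ck : ∀ j, ∀ x ∈ N (j + 1), ∀ c : G,
    x * (fun _ => c) * x⁻¹ * (fun _ => c)⁻¹ ∈ N j

namespace NC

variable {Ω G : Type*} [Group G] (C : NC Ω G)

theorem conjc {j : ℕ} {x : Ω → G} (hx : x ∈ C.N j) (c : G) :
    (fun _ => c) * x * (fun _ => c)⁻¹ ∈ C.N j := by
  rcases j with _ | j
  · rw [C.zero] at hx ⊢
    rw [Subgroup.mem_bot.1 hx]
    simp
  · have h := (C.N (j + 1)).mul_mem ((C.N (j + 1)).inv_mem (C.mono j (C.ck j x hx c))) hx
    have h2 : (x * (fun _ => c) * x⁻¹ * (fun _ => c)⁻¹)⁻¹ * x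
        = (fun _ => c) * x * (fun _ => c)⁻¹ := by group
    rwa [h2] at h

theorem conjN {j : ℕ} {x z : Ω → G} (hx : x ∈ C.N (j + 1)) (hz : z ∈ C.N j) :
    x * z * x⁻¹ ∈ C.N j := by
  have h := (C.N j).mul_mem (C.cc j x hx z (C.mono j hz)) hz
  rwa [inv_mul_cancel_right] at h

theorem commc {j : ℕ} {x : Ω → G} (hx : x ∈ C.N (j + 1)) (c : G) :
    (fun _ => c) * x * (fun _ => c)⁻¹ * x⁻¹ ∈ C.N j := by
  have h := (C.N j).inv_mem (C.ck j x hx c)
  have h2 : (x * (fun _ => c) * x⁻¹ * (fun _ => c)⁻¹)⁻¹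
      = (fun _ => c) * x * (fun _ => c)⁻¹ * x⁻¹ := by group
  rwa [h2] at h

/-- The chain of the functions which are in `N j` up to a constant. -/
def chain : Chain (Ω → G) where
  L := fun j =>
    { carrier := {x | ∃ c : G, x * (fun _ => c)⁻¹ ∈ C.N j}
      mul_mem' := by
        rintro x y ⟨a, ha⟩ ⟨b, hb⟩
        refine ⟨a * b, ?_⟩
        have h := (C.N j).mul_mem ha (C.conjc hb a)
        have h2 : x * (fun _ => a)⁻¹ * ((fun _ => a) * (y * (fun _ => b)⁻¹) * (fun _ => a)⁻¹)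
            = x * y * ((fun _ => a) * (fun _ => b))⁻¹ := by group
        rw [h2] at h
        exact h
      one_mem' := ⟨1, by
        have : (1 : Ω → G) * (fun _ => (1 : G))⁻¹ = 1 := by
          funext ω; simp
        rw [this]
        exact one_mem _⟩
      inv_mem' := by
        rintro x ⟨a, ha⟩
        refine ⟨a⁻¹, ?_⟩
        have h := C.conjc ((C.N j).inv_mem ha) a⁻¹
        have h2 : (fun _ => a)⁻¹ * (x * (fun _ => a)⁻¹)⁻¹ * ((fun _ => a)⁻¹)⁻¹
            = x⁻¹ * ((fun _ => a)⁻¹)⁻¹ := by group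
        have h3 : (fun _ => a⁻¹ : Ω → G) = (fun _ => a)⁻¹ := rfl
        rw [h3, h2] at h
        exact h }
  mono := by
    rintro j x ⟨c, hc⟩
    exact ⟨c, C.mono j hc⟩
  comm := by
    rintro j x ⟨a, ha⟩ y ⟨b, hb⟩
    refine ⟨a * b * a⁻¹ * b⁻¹, ?_⟩
    have h1 := C.commc hb a
    have h2 := C.commc ha (a * b * a⁻¹)
    have h3 := C.commc hb (a * b * a⁻¹ * b⁻¹)
    have h := (C.N j).mul_mem ((C.N j).mul_mem ((C.N j).mul_mem (C.conjN ha h1)
      (C.cc j _ ha _ hb)) (C.conjN hb ((C.N j).inv_mem h2))) ((C.N j).inv_mem h3)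
    have e1 : (fun _ => a * b * a⁻¹ : Ω → G)
        = (fun _ => a) * (fun _ => b) * (fun _ => a)⁻¹ := rfl
    have e2 : (fun _ => a * b * a⁻¹ * b⁻¹ : Ω → G)
        = (fun _ => a) * (fun _ => b) * (fun _ => a)⁻¹ * (fun _ => b)⁻¹ := rfl
    rw [e1, e2] at h
    rw [e2]
    generalize (fun _ => a : Ω → G) = a' at h ⊢
    generalize (fun _ => b : Ω → G) = b' at h ⊢
    convert h using 1
    group

theorem mem_chain {j : ℕ} {x : Ω → G} : x ∈ C.chain.L j ↔ ∃ c : G, x * (fun _ => c)⁻¹ ∈ C.N j :=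
  Iff.rfl

theorem mem_zero {x : Ω → G} : x ∈ C.chain.L 0 ↔ ∃ c : G, ∀ ω, x ω = c := by
  rw [mem_chain, C.zero]
  constructor
  · rintro ⟨c, hc⟩
    refine ⟨c, fun ω => ?_⟩
    have h := congrFun ((Subgroup.mem_bot).1 hc) ω
    exact mul_inv_eq_one.1 h
  · rintro ⟨c, hc⟩
    refine ⟨c, Subgroup.mem_bot.2 ?_⟩
    funext ω
    exact mul_inv_eq_one.2 (hc ω)

end NC

end Pool.Agent.W_cae956_h7
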