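import Pool.Agent.W_cae956_h7.Defs

/-!
MP_cae956_an, proofs row 562, Part D: the polynomial chain of sequences in a nilpotent group.
-/

set_option autoImplicit false

namespace Pool.Agent.W_cae956_h7

open Polynomial

/-- Weighted predicates on sequences; `t` bounds the degrees of the polynomials. -/
inductive W (t : ℕ) {G : Type*} [Group G] : ℕ → (ℤ → G) → Prop
  | one (j : ℕ) : W t j 1
  | mul {j : ℕ} {x y : ℤ → G} (hx : W t j x) (hy : W t j y) : W t j (x * y)
  | inv {j : ℕ} {x : ℤ → G} (hx : W t j x) : W t j x⁻¹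
  | mono {j : ℕ} {x : ℤ → G} (hx : W t (j + 1) x) : W t j x
  | comm {i j : ℕ} {x y : ℤ → G} (hx : W t i x) (hy : W t j y) :
      W t (i + j) (x * y * x⁻¹ * y⁻¹)
  | pow (a : G) (q : ℤ[X]) (d : ℕ) (hd : d ≤ t) (hq : q.natDegree ≤ d) :
      W t (t + 1 - d) (fun n => a ^ (q.eval n))

variable {G : Type*} [Group G] {t : ℕ}

theorem W.le {i j : ℕ} {x : ℤ → G} (h : i ≤ j) (hx : W t j x) : W t i x := by
  obtain ⟨k, rfl⟩ := Nat.exists_eq_add_of_le h
  clear h
  induction k with
  | zero => exact hx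
  | succ k ih => exact ih (W.mono hx)

/-- Constants have weight `t + 1`. -/
theorem W.const (c : G) : W t (t + 1) (fun _ : ℤ => c) := by
  have h := W.pow (t := t) c (1 : ℤ[X]) 0 (Nat.zero_le _) (by simp)
  simpa using h

/-- (D1): `x z x⁻¹ = [x,z] z`. -/
theorem W.conj {i k : ℕ} {x z : ℤ → G} (hx : W t i x) (hz : W t k z) : W t k (x * z * x⁻¹) := by
  have h := W.mul (W.le (Nat.le_add_left k i) (W.comm hx hz)) hz
  rwa [inv_mul_cancel_right] at h

/-- Shifted sequence. -/
def sh (m : ℤ) (x : ℤ → G) : ℤ → G := fun n => x (n + m)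

theorem W.diff {j : ℕ} {x : ℤ → G} (hx : W t j x) (m : ℤ) : W t (j + 1) (x⁻¹ * sh m x) := by
  induction hx with
  | one j =>
    have : (1 : ℤ → G)⁻¹ * sh m 1 = 1 := by
      funext n; simp [sh]
    rw [this]
    exact W.one _
  | @mul j x y hx hy ihx ihy =>
    have h := W.mul (W.conj (W.inv hy) ihx) ihy
    have e : y⁻¹ * (x⁻¹ * sh m x) * y⁻¹⁻¹ * (y⁻¹ * sh m y) = (x * y)⁻¹ * sh m (x * y) := by
      have : sh m (x * y) = sh m x * sh m y := rfl
      rw [this]; group
    rwa [e] at h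
  | @inv j x hx ihx =>
    have h := W.conj hx (W.inv ihx)
    have e : x * (x⁻¹ * sh m x)⁻¹ * x⁻¹ = x⁻¹⁻¹ * sh m x⁻¹ := by
      have : sh m x⁻¹ = (sh m x)⁻¹ := rfl
      rw [this]; group
    rwa [e] at h
  | @mono j x hx ihx => exact W.mono ihx
  | @comm i j x y hx hy ihx ihy =>
    have hxy := W.comm hx hy
    have hy' : W t j (sh m y) := by
      have h := W.mul hy (W.mono ihy)
      rwa [mul_inv_cancel_left] at h
    have h1 := W.conj hx (W.comm ihx hy')
    have h2 := W.conj hy (W.comm hx ihy)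
    have e1 : i + 1 + j = i + j + 1 := by omega
    have e2 : i + (j + 1) = i + j + 1 := by omega
    rw [e1] at h1
    rw [e2] at h2
    have h3 := W.mul (W.conj (W.inv hxy) h1) h2
    have e : (x * y * x⁻¹ * y⁻¹)⁻¹ * (x * (x⁻¹ * sh m x * sh m y * (x⁻¹ * sh m x)⁻¹ * (sh m y)⁻¹)
        * x⁻¹) * (x * y * x⁻¹ * y⁻¹)⁻¹⁻¹ *
        (y * (x * (y⁻¹ * sh m y) * x⁻¹ * (y⁻¹ * sh m y)⁻¹) * y⁻¹)
        = (x * y * x⁻¹ * y⁻¹)⁻¹ * sh m (x * y * x⁻¹ * y⁻¹) := by
      have : sh m (x * y * x⁻¹ * y⁻¹) = sh m x * sh m y * (sh m x)⁻¹ * (sh m y)⁻¹ := rfl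
      rw [this]; group
    rwa [e] at h3
  | pow a q d hd hq =>
    have e : (fun n : ℤ => a ^ (q.eval n))⁻¹ * sh m (fun n : ℤ => a ^ (q.eval n))
        = fun n => a ^ ((q.comp (X + C m) - q).eval n) := by
      funext n
      simp only [sh, Pi.mul_apply, Pi.inv_apply, eval_sub, eval_comp, eval_add, eval_X, eval_C]
      rw [sub_eq_neg_add, zpow_add, zpow_neg]
    rw [e]
    rcases Nat.eq_zero_or_pos d with h0 | h0
    · subst h0
      have hc : q = C (q.coeff 0) := eq_C_of_natDegree_le_zero hq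
      have : q.comp (X + C m) - q = 0 := by
        rw [hc]; simp
      rw [this]
      have e2 : (fun n : ℤ => a ^ ((0 : ℤ[X]).eval n)) = 1 := by
        funext n; simp
      rw [e2]
      exact W.one _
    · have hd1 : (q.comp (X + C m) - q).natDegree ≤ d - 1 := by
        by_cases hq0 : q = 0
        · simp [hq0]
        · by_cases h00 : q.comp (X + C m) - q = 0
          · rw [h00]; simp
          · have h1 := degree_sub_lt_right (p := taylor m q) (q := q) (degree_taylor q m) hq0
              (leadingCoeff_taylor m q)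
            rw [taylor_apply] at h1
            have h2 := natDegree_lt_natDegree h00 h1
            omega
      have h := W.pow (t := t) a (q.comp (X + C m) - q) (d - 1) (by omega) hd1
      have e3 : t + 1 - (d - 1) = t + 1 - d + 1 := by omega
      rwa [e3] at h

/-- The lower central series, with index shifted: `Gam G 0 = Gam G 1 = ⊤`. -/
def Gam (G : Type*) [Group G] : ℕ → Subgroup G
  | 0 => ⊤
  | (i + 1) => (⊤ : Subgroup G).lowerCentralSeries i

instance Gam_normal (i : ℕ) : (Gam G i).Normal := by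
  cases i with
  | zero => unfold Gam; infer_instance
  | succ i => unfold Gam; infer_instance

theorem Gam_anti : Antitone (Gam G) := by
  refine antitone_nat_of_succ_le fun i => ?_
  cases i with
  | zero => exact le_top
  | succ i => exact Subgroup.lowerCentralSeries_antitone _ (Nat.le_succ i)

theorem three_sub (A B D N : Subgroup G) [N.Normal] (h1 : ⁅⁅B, D⁆, A⁆ ≤ N)
    (h2 : ⁅⁅D, A⁆, B⁆ ≤ N) : ⁅⁅A, B⁆, D⁆ ≤ N := by
  have key : ∀ P : Subgroup G, P ≤ N ↔ P.map (QuotientGroup.mk' N) = ⊥ := by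
    intro P
    rw [Subgroup.map_eq_bot_iff, QuotientGroup.ker_mk']
  rw [key] at h1 h2 ⊢
  rw [Subgroup.map_commutator, Subgroup.map_commutator] at h1 h2 ⊢
  exact Subgroup.commutator_commutator_eq_bot_of_rotate h1 h2

theorem Gam_top (i : ℕ) : ⁅Gam G i, (⊤ : Subgroup G)⁆ ≤ Gam G (i + 1) := by
  cases i with
  | zero => exact le_top
  | succ i => exact le_refl _

/-- `[γ_i, γ_j] ≤ γ_{i+j}`.  Induction on `j` for all `i`: in the quotient by `Gam G (i + j + 1)`
use the three subgroups lemma `Subgroup.commutator_commutator_eq_bot_of_rotate`. -/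
theorem Gam_comm (i j : ℕ) : ⁅Gam G i, Gam G j⁆ ≤ Gam G (i + j) := by
  induction j generalizing i with
  | zero => exact Subgroup.commutator_le_left _ _
  | succ j ih =>
    rcases Nat.eq_zero_or_pos j with h0 | h0
    · subst h0
      exact Gam_top i
    · obtain ⟨k, rfl⟩ : ∃ k, j = k + 1 := ⟨j - 1, by omega⟩
      have e : Gam G (k + 1 + 1) = ⁅Gam G (k + 1), (⊤ : Subgroup G)⁆ := rfl
      rw [e, Subgroup.commutator_comm]
      refine three_sub _ _ _ _ ?_ ?_
      · refine (Subgroup.commutator_mono (Subgroup.commutator_comm_le _ _) le_rfl).trans ?_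
        refine (Subgroup.commutator_mono (Gam_top i) le_rfl).trans ?_
        refine (ih (i + 1)).trans (le_of_eq ?_)
        congr 1; omega
      · refine (Subgroup.commutator_mono (ih i) le_rfl).trans ?_
        exact Gam_top _

/-- (D3): if `i (t+1) < j + (t+1)`, a sequence of weight `j` has its values in `Gam G i`. -/
theorem W.mem_Gam {j : ℕ} {x : ℤ → G} (hx : W t j x) (i : ℕ)
    (hi : i * (t + 1) < j + (t + 1)) (n : ℤ) : x n ∈ Gam G i := by
  induction hx generalizing i with
  | one j => exact one_mem _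
  | mul hx hy ihx ihy => exact mul_mem (ihx i hi) (ihy i hi)
  | inv hx ihx => exact inv_mem (ihx i hi)
  | mono hx ihx => exact ihx i (by omega)
  | @comm a b x y hx hy ihx ihy =>
    have key : ∀ c : ℕ, c ≤ (c + t) / (t + 1) * (t + 1) ∧
        (c + t) / (t + 1) * (t + 1) < c + (t + 1) := by
      intro c
      have h1 := Nat.div_add_mod (c + t) (t + 1)
      have h2 := Nat.mod_lt (c + t) (Nat.succ_pos t)
      rw [Nat.mul_comm] at h1
      simp only [Nat.succ_eq_add_one] at h2
      omega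
    obtain ⟨ha1, ha2⟩ := key a
    obtain ⟨hb1, hb2⟩ := key b
    have h3 := Gam_comm (G := G) _ _ (Subgroup.commutator_mem_commutator (ihx _ ha2) (ihy _ hb2))
    refine Gam_anti ?_ h3
    by_contra hlt
    push Not at hlt
    have h4 : ((a + t) / (t + 1) + (b + t) / (t + 1) + 1) * (t + 1) ≤ i * (t + 1) :=
      Nat.mul_le_mul_right _ hlt
    have h5 : ((a + t) / (t + 1) + (b + t) / (t + 1) + 1) * (t + 1)
        = (a + t) / (t + 1) * (t + 1) + (b + t) / (t + 1) * (t + 1) + (t + 1) := by ring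
    omega
  | pow a q d hd hq =>
    have h2 : i < 2 := by
      by_contra h
      push Not at h
      have : 2 * (t + 1) ≤ i * (t + 1) := Nat.mul_le_mul_right _ h
      omega
    interval_cases i
    · trivial
    · trivial

/-- The subgroup of the sequences of weight `j`. -/
def WS (t : ℕ) (G : Type*) [Group G] (j : ℕ) : Subgroup (ℤ → G) where
  carrier := {x | W t j x}
  mul_mem' := fun hx hy => W.mul hx hy
  one_mem' := W.one j
  inv_mem' := fun hx => W.inv hx

theorem WS_eq_bot (c : ℕ) (hc : (⊤ : Subgroup G).lowerCentralSeries c = ⊥) {j : ℕ}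
    (hj : c * (t + 1) + 1 ≤ j) : WS t G j = ⊥ := by
  rw [eq_bot_iff]
  intro x hx
  have hx : W t j x := hx
  rw [Subgroup.mem_bot]
  funext n
  have h := hx.mem_Gam (c + 1) (by
    have : (c + 1) * (t + 1) = c * (t + 1) + (t + 1) := by ring
    omega) n
  have h2 : x n ∈ (⊤ : Subgroup G).lowerCentralSeries c := h
  rw [hc, Subgroup.mem_bot] at h2
  exact h2

/-- The polynomial chain: `N j = WS (max 1 (K - j))`, `K = c (t + 1) + 1`, `c` the class. -/
def polyNC (t : ℕ) (G : Type*) [Group G] (c : ℕ) (hc : (⊤ : Subgroup G).lowerCentralSeries c = ⊥) :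
    NC ℤ G where
  N := fun j => WS t G (max 1 (c * (t + 1) + 1 - j))
  zero := WS_eq_bot c hc (by omega)
  mono := by
    intro j x hx
    have hx : W t _ x := hx
    exact W.le (by omega) hx
  cc := by
    intro j x hx y hy
    have hx : W t _ x := hx
    have hy : W t _ y := hy
    exact W.le (by omega) (W.comm hx hy)
  ck := by
    intro j x hx d
    have hx : W t _ x := hx
    exact W.le (by omega) (W.comm hx (W.const d))

theorem polyNC_diff (c : ℕ) (hc : (⊤ : Subgroup G).lowerCentralSeries c = ⊥) {j : ℕ} {x : ℤ → G}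
    (hx : x ∈ (polyNC t G c hc).N (j + 1)) (m : ℤ) : x⁻¹ * sh m x ∈ (polyNC t G c hc).N j := by
  have hx : W t _ x := hx
  exact W.le (by omega) (W.diff hx m)

theorem polyNC_pow (c : ℕ) (hc : (⊤ : Subgroup G).lowerCentralSeries c = ⊥) (a : G) (q : ℤ[X])
    (hq : q.natDegree ≤ t) :
    (fun n => a ^ (q.eval n)) ∈ (polyNC t G c hc).N (c * (t + 1)) := by
  have h := W.pow (t := t) a q t le_rfl hq
  exact W.le (by omega) h

/-- A chain of sequences stable under differences. -/
structure SChain (G : Type*) [Group G] extends Chain (ℤ → G) where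
  zero : ∀ x, x ∈ L 0 ↔ ∃ c : G, ∀ n, x n = c
  sh : ∀ j, ∀ x ∈ L (j + 1), ∀ m : ℤ, (fun n => x (n + m) * (x n)⁻¹) ∈ L j

/-- The chain of `polyNC`.  For `sh`: `x = u c` with `u ∈ N (j+1)`, `c` constant, and
`x(n+m) x(n)⁻¹ = u(n) (u(n)⁻¹ u(n+m)) u(n)⁻¹`, use `NC.conjN`. -/
def polyChain (t : ℕ) (G : Type*) [Group G] (c : ℕ)
    (hc : (⊤ : Subgroup G).lowerCentralSeries c = ⊥) : SChain G where
  toChain := (polyNC t G c hc).chain
  zero := fun x => (polyNC t G c hc).mem_zero
  sh := by
    intro j x hx m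
    obtain ⟨d, hd⟩ := hx
    refine ⟨1, ?_⟩
    have h := (polyNC t G c hc).conjN hd (polyNC_diff c hc hd m)
    have e : (fun n => x (n + m) * (x n)⁻¹) * (fun _ => (1 : G))⁻¹
        = x * (fun _ => d)⁻¹ * ((x * (fun _ => d)⁻¹)⁻¹ * sh m (x * (fun _ => d)⁻¹))
          * (x * (fun _ => d)⁻¹)⁻¹ := by
      funext n
      simp only [sh, Pi.mul_apply, Pi.inv_apply]
      group
    rw [e]
    exact h

theorem polyChain_pow (c : ℕ) (hc : (⊤ : Subgroup G).lowerCentralSeries c = ⊥) (a : G) (q : ℤ[X])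
    (hq : q.natDegree ≤ t) :
    ∃ j, (fun n => a ^ (q.eval n)) ∈ (polyChain t G c hc).L j := by
  refine ⟨c * (t + 1), 1, ?_⟩
  have h := polyNC_pow c hc a q hq
  have e : (fun n : ℤ => a ^ (q.eval n)) * (fun _ => (1 : G))⁻¹ = fun n => a ^ (q.eval n) := by
    funext n; simp
  rw [e]
  exact h

end Pool.Agent.W_cae956_h7
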