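import Pool.Agent.W_cae956_h7.Defs

/-!
MP_cae956_an, proofs row 562, (A1): an invariant measure of full support.
-/

set_option autoImplicit false

open MeasureTheory Filter Topology
open scoped ENNReal NNReal BoundedContinuousFunction Pointwise

namespace Pool.Agent.W_cae956_h7

/-- Krylov-Bogoliubov.  `ProbabilityMeasure X` is compact; take a cluster point of the averages
of the push-forwards of a Dirac measure (or an ultrafilter limit). -/
theorem exists_inv {X : Type*} [MetricSpace X] [CompactSpace X] [Nonempty X] [MeasurableSpace X]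
    [BorelSpace X] (e : X ≃ₜ X) :
    ∃ μ : Measure X, IsProbabilityMeasure μ ∧ μ.map e = μ := by
  classical
  obtain ⟨x0⟩ := (inferInstance : Nonempty X)
  have hc : ∀ N : ℕ, ((N + 1 : ℕ) : ℝ≥0∞) ≠ 0 ∧ ((N + 1 : ℕ) : ℝ≥0∞) ≠ ∞ := fun N =>
    ⟨by exact_mod_cast Nat.succ_ne_zero N, ENNReal.natCast_ne_top _⟩
  let ν0 : ℕ → Measure X := fun N =>
    (((N + 1 : ℕ) : ℝ≥0∞))⁻¹ • ∑ n ∈ Finset.range (N + 1), Measure.dirac (e^[n] x0)
  have hν0 : ∀ N, IsProbabilityMeasure (ν0 N) := by
    intro N
    constructor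
    simp only [ν0, Measure.smul_apply, Measure.finsetSum_apply, smul_eq_mul, measure_univ,
      Finset.sum_const, Finset.card_range, nsmul_eq_mul, mul_one]
    exact ENNReal.inv_mul_cancel (hc N).1 (hc N).2
  have hint : ∀ (f : X →ᵇ ℝ) N, ∫ y, f y ∂(ν0 N) =
      ((N + 1 : ℕ) : ℝ)⁻¹ * ∑ n ∈ Finset.range (N + 1), f (e^[n] x0) := by
    intro f N
    have h1 : ∀ n ∈ Finset.range (N + 1), Integrable (fun y => f y) (Measure.dirac (e^[n] x0)) :=
      fun n _ => f.integrable _
    simp only [ν0]
    rw [integral_smul_measure, integral_finsetSum_measure h1]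
    simp only [integral_dirac, ENNReal.toReal_inv, ENNReal.toReal_natCast, smul_eq_mul]
  let ν : ℕ → ProbabilityMeasure X := fun N => ⟨ν0 N, hν0 N⟩
  let u : Ultrafilter ℕ := hyperfilter ℕ
  have hu : (u : Filter ℕ) ≤ atTop := by
    rw [← Nat.cofinite_eq_atTop]
    exact hyperfilter_le_cofinite
  obtain ⟨μ, -, hμ⟩ := isCompact_univ.ultrafilter_le_nhds (u.map ν) (by simp)
  have hμ' : Tendsto ν u (𝓝 μ) := hμ
  rw [ProbabilityMeasure.tendsto_iff_forall_integral_tendsto] at hμ'
  refine ⟨μ, inferInstance, ?_⟩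
  have : IsProbabilityMeasure ((μ : Measure X).map e) :=
    Measure.isProbabilityMeasure_map e.continuous.measurable.aemeasurable
  refine ext_of_forall_integral_eq_of_IsFiniteMeasure fun f => ?_
  rw [integral_map e.continuous.measurable.aemeasurable f.continuous.aestronglyMeasurable]
  let g : X →ᵇ ℝ := f.compContinuous ⟨e, e.continuous⟩
  have hg : ∀ y, g y = f (e y) := fun y => rfl
  have h1 := hμ' f
  have h2 := hμ' g
  have h3 : Tendsto (fun N => ∫ y, g y ∂(ν N : Measure X) - ∫ y, f y ∂(ν N : Measure X)) u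
      (𝓝 0) := by
    refine Tendsto.mono_left ?_ hu
    have h4 : ∀ N, ∫ y, g y ∂(ν N : Measure X) - ∫ y, f y ∂(ν N : Measure X) =
        ((N + 1 : ℕ) : ℝ)⁻¹ * (f (e^[N + 1] x0) - f x0) := by
      intro N
      show ∫ y, g y ∂(ν0 N) - ∫ y, f y ∂(ν0 N) = _
      rw [hint, hint, ← mul_sub]
      congr 1
      have h5 : ∀ n, g (e^[n] x0) = f (e^[n + 1] x0) := by
        intro n
        rw [hg, Function.iterate_succ_apply']
      simp only [h5]
      rw [← Finset.sum_sub_distrib, Finset.sum_range_sub (fun n => f (e^[n] x0))]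
      rfl
    simp only [h4]
    have h6 : Tendsto (fun N : ℕ => ((N + 1 : ℕ) : ℝ)⁻¹ * (2 * ‖f‖)) atTop (𝓝 0) := by
      have := (tendsto_inv_atTop_zero.comp
        (tendsto_natCast_atTop_atTop.comp (tendsto_add_atTop_nat 1) :
          Tendsto (fun N : ℕ => ((N + 1 : ℕ) : ℝ)) atTop atTop)).mul_const (2 * ‖f‖)
      simpa using this
    refine squeeze_zero_norm (fun N => ?_) h6
    rw [norm_mul, norm_inv, Real.norm_natCast]
    refine mul_le_mul_of_nonneg_left ?_ (by positivity)
    refine (norm_sub_le _ _).trans ?_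
    have := f.norm_coe_le_norm (e^[N + 1] x0)
    have := f.norm_coe_le_norm x0
    linarith
  have h7 := tendsto_nhds_unique (h2.sub h1) h3
  have h8 : ∫ y, g y ∂(μ : Measure X) = ∫ y, f y ∂(μ : Measure X) := by linarith
  exact h8

/-- A finite invariant measure of full support, for a central element of a group acting
minimally. -/
theorem exists_full {G X : Type*} [Group G] [MetricSpace X] [CompactSpace X] [Nonempty X]
    [MeasurableSpace X] [BorelSpace X] [MulAction G X] [ContinuousConstSMul G X]
    [MulAction.IsMinimal G X] (e : G) (he : ∀ g : G, g * e = e * g) :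
    ∃ μ : Measure X, IsFiniteMeasure μ ∧ μ.map (fun x => e • x) = μ ∧
      ∀ O : Set X, IsOpen O → O.Nonempty → 0 < μ O := by
  classical
  obtain ⟨μ0, hp, hinv⟩ := exists_inv (X := X) (Homeomorph.smul e)
  have hm : ∀ g : G, Measurable fun x : X => g • x := fun g => (continuous_const_smul g).measurable
  have hinv' : μ0.map (fun x => e • x) = μ0 := hinv
  have hex : ∀ B : Set X, IsOpen B → B.Nonempty → ∃ g : G, 0 < μ0 (g • B) := by
    intro B hB hne
    obtain ⟨I, hI⟩ := (isCompact_univ : IsCompact (Set.univ : Set X)).exists_finite_cover_smul G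
      hB hne
    by_contra hcon
    push Not at hcon
    have h0 : μ0 (⋃ g ∈ I, g • B) = 0 := by
      refine (measure_biUnion_null_iff I.countable_toSet).mpr fun g _ => ?_
      exact le_antisymm (hcon g) bot_le
    have h1 : μ0 Set.univ ≤ 0 := h0 ▸ measure_mono hI
    rw [measure_univ] at h1
    exact absurd h1 (by norm_num)
  have hb := TopologicalSpace.isBasis_countableBasis X
  have hcB : Countable (TopologicalSpace.countableBasis X) :=
    (TopologicalSpace.countable_countableBasis X).to_subtype
  have hne : ∀ B : TopologicalSpace.countableBasis X, (B : Set X).Nonempty := fun B =>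
    TopologicalSpace.nonempty_of_mem_countableBasis B.2
  have hop : ∀ B : TopologicalSpace.countableBasis X, IsOpen (B : Set X) := fun B =>
    hb.isOpen B.2
  choose g hgB using fun B : TopologicalSpace.countableBasis X => hex B (hop B) (hne B)
  obtain ⟨c, hc0, hc1⟩ := ENNReal.exists_pos_sum_of_countable' (ε := 1) one_ne_zero
    (TopologicalSpace.countableBasis X)
  refine ⟨Measure.sum fun B => c B • μ0.map (fun x => (g B)⁻¹ • x), ⟨?_⟩, ?_, ?_⟩
  · rw [Measure.sum_apply _ MeasurableSet.univ]
    have : ∀ B : TopologicalSpace.countableBasis X,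
        (c B • μ0.map (fun x => (g B)⁻¹ • x)) Set.univ = c B := by
      intro B
      rw [Measure.smul_apply, Measure.map_apply (hm _) MeasurableSet.univ, Set.preimage_univ,
        measure_univ, smul_eq_mul, mul_one]
    simp only [this]
    exact hc1.trans ENNReal.one_lt_top
  · rw [Measure.map_sum (hm e).aemeasurable]
    congr 1
    funext B
    rw [Measure.map_smul, Measure.map_map (hm e) (hm _)]
    congr 1
    have h1 : ((fun x : X => e • x) ∘ fun x => (g B)⁻¹ • x) =
        (fun x : X => (g B)⁻¹ • x) ∘ fun x => e • x := by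
      funext x
      simp only [Function.comp_apply, smul_smul, he]
    rw [h1, ← Measure.map_map (hm _) (hm e), hinv']
  · intro O hO ⟨x, hx⟩
    obtain ⟨B, hB, -, hBO⟩ := hb.exists_subset_of_mem_open hx hO
    refine lt_of_lt_of_le ?_ (measure_mono hBO)
    rw [Measure.sum_apply _ (hb.isOpen hB).measurableSet]
    refine lt_of_lt_of_le ?_ (ENNReal.le_tsum ⟨B, hB⟩)
    rw [Measure.smul_apply, Measure.map_apply (hm _) (hb.isOpen hB).measurableSet, smul_eq_mul]
    refine ENNReal.mul_pos (hc0 _).ne' ?_
    have h2 := hgB ⟨B, hB⟩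
    rw [Set.preimage_smul_inv]
    exact h2.ne'

end Pool.Agent.W_cae956_h7
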