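import Pool.Agent.W_cae956_h7.Pet
import Pool.Agent.W_cae956_h7.ComWM
import Pool.Agent.W_cae956_h7.Meas
import Pool.Agent.W_MP_cae956.Final

/-!
MP_cae956_an, proofs row 562, Part F: conclusion.
-/

set_option autoImplicit false

open Polynomial

namespace Pool.Agent.W_cae956_h7

theorem natDegree_eq_zero_of_const {q : ℤ[X]} (c : ℤ) (h : ∀ n : ℤ, q.eval n = c) :
    q.natDegree = 0 := by
  have h1 : q = C c := Polynomial.funext fun n => by rw [h n, eval_C]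
  rw [h1, natDegree_C]

section group

variable {G : Type*} [Group G]

theorem zpow_inj' (htf : ∀ a : G, a ≠ 1 → ∀ s : ℤ, s ≠ 0 → a ^ s ≠ 1) {a : G} (ha : a ≠ 1)
    {k l : ℤ} (h : a ^ k = a ^ l) : k = l := by
  by_contra hne
  refine htf a ha (k - l) (sub_ne_zero.2 hne) ?_
  rw [zpow_sub, h, mul_inv_cancel]

/-- Powers along a nonconstant polynomial are not constant. -/
theorem pow_not_const (htf : ∀ a : G, a ≠ 1 → ∀ s : ℤ, s ≠ 0 → a ^ s ≠ 1) {a : G} (ha : a ≠ 1)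
    {q : ℤ[X]} (hq : 0 < q.natDegree) : ¬ ∃ c : G, ∀ n : ℤ, a ^ q.eval n = c := by
  rintro ⟨c, hc⟩
  have h1 : q.natDegree = 0 := natDegree_eq_zero_of_const (q.eval 0) fun n =>
    zpow_inj' htf ha ((hc n).trans (hc 0).symm)
  omega

/-- Independent polynomials give independent sequences. -/
theorem pow_not_rel (htf : ∀ a : G, a ≠ 1 → ∀ s : ℤ, s ≠ 0 → a ^ s ≠ 1) {a b : G}
    (hb : b ≠ 1) {p q : ℤ[X]} (hp : 0 < p.natDegree)
    (hpq : ∀ k l : ℤ, (k ≠ 0 ∨ l ≠ 0) → 0 < (k • p + l • q).natDegree) :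
    ¬ ∃ c : G, ∀ n : ℤ, a ^ p.eval n * (b ^ q.eval n)⁻¹ = c := by
  rintro ⟨c, hc⟩
  have h1 : ∀ n, a ^ p.eval n = c * b ^ q.eval n := fun n => by
    rw [← hc n, inv_mul_cancel_right]
  have h2 : ∀ n, a ^ (-p.eval 0 + p.eval n) = b ^ (-q.eval 0 + q.eval n) := by
    intro n
    rw [zpow_add, zpow_neg, h1 n, h1 0, zpow_add, zpow_neg]
    group
  obtain ⟨n0, hn0⟩ : ∃ n0 : ℤ, -p.eval 0 + p.eval n0 ≠ 0 := by
    by_contra hcon
    push Not at hcon
    have h3 : p.natDegree = 0 := natDegree_eq_zero_of_const (p.eval 0) fun n => by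
      have := hcon n
      omega
    omega
  have h3 : ∀ n, (-q.eval 0 + q.eval n) * (-p.eval 0 + p.eval n0)
      = (-q.eval 0 + q.eval n0) * (-p.eval 0 + p.eval n) := by
    intro n
    refine zpow_inj' htf hb ?_
    rw [zpow_mul, zpow_mul, ← h2, ← h2, ← zpow_mul, ← zpow_mul, mul_comm]
  have h4 : ((-(-q.eval 0 + q.eval n0)) • p + (-p.eval 0 + p.eval n0) • q).natDegree = 0 := by
    refine natDegree_eq_zero_of_const
      (-(-q.eval 0 + q.eval n0) * p.eval 0 + (-p.eval 0 + p.eval n0) * q.eval 0) fun n => ?_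
    simp only [eval_add, eval_smul, smul_eq_mul]
    have := h3 n
    linarith
  have h5 := hpq (-(-q.eval 0 + q.eval n0)) (-p.eval 0 + p.eval n0) (Or.inr hn0)
  omega

end group

theorem tra_of_dense {G X : Type*} [Group G] [TopologicalSpace X] [MulAction G X] {a : G}
    (h : ∃ x : X, Dense (Set.range fun n : ℤ => a ^ n • x)) : Tra X a := by
  obtain ⟨z, hz⟩ := h
  intro U V hU hU' hV hV'
  obtain ⟨_, hk, k, rfl⟩ := hz.inter_open_nonempty _ hU hU'
  obtain ⟨_, hn, n, rfl⟩ := hz.inter_open_nonempty _ hV hV'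
  refine ⟨n - k, a ^ k • z, hk, ?_⟩
  rw [smul_smul, ← zpow_add, sub_add_cancel]
  exact hn

/-- Joint transitivity, abstract form. -/
theorem joint_nil {G X : Type} [Group G] [MetricSpace X] [CompactSpace X] [Nontrivial X]
    [MulAction G X] [ContinuousConstSMul G X] [MulAction.IsMinimal G X] [Group.IsNilpotent G]
    (hG : ∃ g h : G, g * h ≠ h * g)
    (htr : ∀ g : G, g ≠ 1 → ∃ x : X, Dense (Set.range fun n : ℤ => g ^ n • x))
    {ℓ : ℕ} (e : Fin ℓ → G) (he : ∀ j, e j ≠ 1) (p : Fin ℓ → ℤ[X])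
    (hdeg : ∀ j, 0 < (p j).natDegree)
    (hind : ∀ i j, i ≠ j → ∀ a b : ℤ, (a ≠ 0 ∨ b ≠ 0) → 0 < (a • p i + b • p j).natDegree)
    (U : Set X) (V : Fin ℓ → Set X) (hU : IsOpen U) (hU' : U.Nonempty) (hV : ∀ j, IsOpen (V j))
    (hV' : ∀ j, (V j).Nonempty) :
    ∃ (n : ℤ) (x : X), x ∈ U ∧ ∀ j, (e j) ^ ((p j).eval n) • x ∈ V j := by
  classical
  let _ : MeasurableSpace X := borel X
  have _ : BorelSpace X := ⟨rfl⟩
  obtain ⟨a, b, z, hz1, hzc, hab⟩ := exists_central_commutator hG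
  obtain ⟨μ, hμfin, hμ, hμfull⟩ := exists_full (X := X) z hzc
  have hzWM : WM X z := wm_of_commutator μ a b z hμ hμfull (hzc a) (hzc b) hab (htr z hz1)
  have hWM : ∀ g : G, g ≠ 1 → WM X g := fun g hg =>
    wm_of_tra hzWM (hzc g) (tra_of_dense (htr g hg))
  have htf : ∀ a : G, a ≠ 1 → ∀ s : ℤ, s ≠ 0 → a ^ s ≠ 1 := fun a ha s hs =>
    (hWM a ha).zpow_ne_one hs
  obtain ⟨c, hc⟩ := Subgroup.nilpotent_iff_lowerCentralSeries.1 (inferInstance : Group.IsNilpotent G)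
  set t : ℕ := Finset.univ.sup fun j => (p j).natDegree with ht
  set CH := polyChain t G c hc with hCH
  refine pet CH hWM _ (Fin ℓ) (fun j n => (e j) ^ ((p j).eval n)) rfl ?_ ?_ ?_ U V hU hU' hV hV'
  · intro j
    exact polyChain_pow c hc (e j) (p j) (Finset.le_sup (f := fun j => (p j).natDegree)
      (Finset.mem_univ j))
  · intro j hj
    exact pow_not_const htf (he j) (hdeg j) ((CH.zero _).1 hj)
  · intro i j hij hj
    exact pow_not_rel htf (he j) (hdeg i) (hind i j hij) ((CH.zero _).1 hj)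

/-- The theorem for homeomorphisms. -/
theorem joint_homeo (X : Type) [MetricSpace X] [CompactSpace X] (G : Subgroup (X ≃ₜ X)) (ℓ : ℕ)
    (T : Fin ℓ → (X ≃ₜ X)) (p : Fin ℓ → ℤ[X])
    (hnil : Group.IsNilpotent G)
    (hnc : ∃ g ∈ G, ∃ h ∈ G, g * h ≠ h * g)
    (hmin : ∀ x : X, Dense {y : X | ∃ g ∈ G, g x = y})
    (htr : ∀ g ∈ G, g ≠ 1 → ∃ x : X, Dense (Set.range fun n : ℤ => (g ^ n) x))
    (hT : ∀ j, T j ∈ G ∧ T j ≠ 1)
    (hdeg : ∀ j, 0 < (p j).natDegree)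
    (hind : ∀ i j, i ≠ j → ∀ a b : ℤ, (a ≠ 0 ∨ b ≠ 0) → 0 < (a • p i + b • p j).natDegree) :
    ∃ S : Set X, IsGδ S ∧ Dense S ∧
      ∀ x ∈ S, Dense (Set.range (fun n : ℤ => fun j : Fin ℓ => (T j ^ ((p j).eval n)) x)) := by
  have hX : Nontrivial X := by
    by_contra hX
    rw [not_nontrivial_iff_subsingleton] at hX
    obtain ⟨g, -, h, -, hgh⟩ := hnc
    exact hgh (Homeomorph.ext fun x => Subsingleton.elim _ _)
  refine Pool.Agent.W_MP_cae956.residual_of_open (fun n j => T j ^ ((p j).eval n))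
    (fun _ _ => Homeomorph.continuous _) ?_
  intro U V hU hU' hV hV'
  let _ : MulAction G X :=
    { smul := fun g x => g.1 x
      one_smul := fun x => rfl
      mul_smul := fun a b x => rfl }
  have hact : ∀ (a : G) (x : X), a • x = a.1 x := fun _ _ => rfl
  have _ : ContinuousConstSMul G X := ⟨fun a => a.1.continuous⟩
  have _ : MulAction.IsMinimal G X := by
    refine ⟨fun x => ?_⟩
    refine (hmin x).mono ?_
    rintro y ⟨g, hg, rfl⟩
    exact ⟨⟨g, hg⟩, rfl⟩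
  have hz : ∀ (n : ℤ) (a : G) (x : X), (a ^ n) • x = (a.1 ^ n) x := fun n a x => by
    rw [hact, Subgroup.coe_zpow]
  have hA : ∃ g h : G, g * h ≠ h * g := by
    obtain ⟨g, hg, h, hh, hgh⟩ := hnc
    exact ⟨⟨g, hg⟩, ⟨h, hh⟩, fun he => hgh (congrArg Subtype.val he)⟩
  have hB : ∀ g : G, g ≠ 1 → ∃ x : X, Dense (Set.range fun n : ℤ => g ^ n • x) := by
    intro g hg
    obtain ⟨x, hx⟩ := htr g.1 g.2 (fun h => hg (Subtype.ext h))
    refine ⟨x, ?_⟩
    simp only [hz]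
    exact hx
  have hC : ∀ j, (⟨T j, (hT j).1⟩ : G) ≠ 1 := fun j h => (hT j).2 (congrArg Subtype.val h)
  obtain ⟨n, x, hx, hx'⟩ := joint_nil (G := G) (X := X) hA hB (fun j => ⟨T j, (hT j).1⟩) hC p hdeg
    hind U V hU hU' hV hV'
  refine ⟨n, x, hx, fun j => ?_⟩
  have h := hx' j
  rw [hz] at h
  exact h

end Pool.Agent.W_cae956_h7
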