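import Pool.Agent.W_cae956_h7.Sel

/-!
MP_cae956_an, proofs row 562, Part E: the PET induction.
-/

set_option autoImplicit false
set_option linter.unusedSectionVars false

namespace Pool.Agent.W_cae956_h7

variable {G : Type*} [Group G]

theorem SChain.rel_iff (C : SChain G) {u v : ℤ → G} : Rel u v ↔ u * v⁻¹ ∈ C.L 0 := by
  rw [C.zero, Pool.Agent.W_cae956_h7.rel_iff]
  exact Iff.rfl

/-- (D4): periodic sequences of the chain are constant. -/
theorem SChain.periodic (C : SChain G) (htf : ∀ a : G, a ≠ 1 → ∀ s : ℤ, s ≠ 0 → a ^ s ≠ 1) (j : ℕ) :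
    ∀ x ∈ C.L j, ∀ m : ℤ, m ≠ 0 → (∀ n, x (n + m) = x n) → x ∈ C.L 0 := by
  induction j with
  | zero => exact fun x hx _ _ _ => hx
  | succ j ih =>
    intro x hx m hm hper
    have h1 := ih _ (C.sh j x hx 1) m hm (fun n => by
      show x (n + m + 1) * (x (n + m))⁻¹ = x (n + 1) * (x n)⁻¹
      rw [hper n, show n + m + 1 = n + 1 + m by ring, hper (n + 1)])
    obtain ⟨a, ha⟩ := (C.zero _).1 h1
    have h2 : ∀ n, x (n + 1) = a * x n := fun n => by
      have h3 : x (n + 1) * (x n)⁻¹ = a := ha n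
      rw [← h3, inv_mul_cancel_right]
    have h4 : a ^ m = 1 := by
      have h5 := lin_iter h2 m 0
      rw [one_mul, hper 0] at h5
      exact (mul_eq_right.1 h5.symm)
    have h6 : a = 1 := by
      by_contra hne
      exact htf a hne m hm h4
    refine (C.zero _).2 ⟨x 0, fun n => ?_⟩
    have h7 := lin_iter h2 n 0
    rw [one_mul, zero_add, h6, one_zpow, one_mul] at h7
    exact h7

/-- The shifted member is congruent to the member. -/
theorem SChain.tw_mem (C : SChain G) {ι : Type} (g : ι → ℤ → G) (h : ℕ → G) (m : ℕ → ℤ) (i : ι)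
    (l : ℕ) (hg : ∃ j, g i ∈ C.L j) (hg0 : g i ∉ C.L 0) :
    tw g h m i l * (g i)⁻¹ ∈ C.L (C.wt (g i) - 1) := by
  have hw := C.one_le_wt hg hg0
  obtain ⟨w, hw'⟩ : ∃ w, C.wt (g i) = w + 1 := ⟨C.wt (g i) - 1, by omega⟩
  have hgi : g i ∈ C.L (w + 1) := hw' ▸ C.mem_wt hg
  rw [hw', Nat.add_sub_cancel]
  have h1 := C.sh w _ hgi (m l)
  have h2 : (fun _ => (h l)⁻¹ : ℤ → G) ∈ C.L w :=
    C.monotone (Nat.zero_le w) ((C.zero _).2 ⟨(h l)⁻¹, fun _ => rfl⟩)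
  have h3 := (C.L w).mul_mem h1 (C.conj hgi h2)
  convert h3 using 1
  funext n
  show g i (n + m l) * (h l)⁻¹ * (g i n)⁻¹
    = g i (n + m l) * (g i n)⁻¹ * (g i n * (h l)⁻¹ * (g i n)⁻¹)
  group

variable {X : Type*} [TopologicalSpace X] [MulAction G X] [ContinuousConstSMul G X]

theorem cover [CompactSpace X] [MulAction.IsMinimal G X] {U : Set X} (hU : IsOpen U)
    (hU' : U.Nonempty) : ∃ (N : ℕ) (h : ℕ → G), 0 < N ∧ ∀ z : X, ∃ k < N, (h k)⁻¹ • z ∈ U := by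
  obtain ⟨F, hF⟩ := isCompact_univ.exists_finite_cover_smul G hU hU'
  have hcov : ∀ z : X, ∃ k < F.toList.length, (F.toList.getD k 1)⁻¹ • z ∈ U := by
    intro z
    have h1 := hF (Set.mem_univ z)
    simp only [Set.mem_iUnion] at h1
    obtain ⟨g, hg, hz⟩ := h1
    obtain ⟨k, hk, hgk⟩ := List.getElem_of_mem (Finset.mem_toList.2 hg)
    refine ⟨k, hk, ?_⟩
    rw [List.getD_eq_getElem _ _ hk, hgk]
    exact Set.mem_smul_set_iff_inv_smul_mem.1 hz
  obtain ⟨x, hx⟩ := hU'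
  refine ⟨F.toList.length, fun k => F.toList.getD k 1, ?_, hcov⟩
  obtain ⟨k, hk, -⟩ := hcov x
  omega

/-- The set of the conditions of one class. -/
def CS {E : Type} (u : E → ℤ → G) (V : E → Set X) (e₀ : E) : Set X :=
  {y | ∀ e, Rel (u e) (u e₀) → (u e 0 * (u e₀ 0)⁻¹) • y ∈ V e}

theorem CS_open {E : Type} [Finite E] (u : E → ℤ → G) (V : E → Set X) (hV : ∀ e, IsOpen (V e))
    (e₀ : E) : IsOpen (CS u V e₀) := by
  have h1 : CS u V e₀ = ⋂ e : E, ⋂ _ : Rel (u e) (u e₀),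
      {y | (u e 0 * (u e₀ 0)⁻¹) • y ∈ V e} := by
    ext z
    simp only [CS, Set.mem_iInter]
    exact Iff.rfl
  rw [h1]
  exact isOpen_iInter_of_finite fun e => isOpen_iInter_of_finite fun _ => isOpen_pre _ (hV e)

/-- (E3): one step of the induction. -/
theorem pet_step [CompactSpace X] [MulAction.IsMinimal G X] (C : SChain G)
    {ι : Type} [Fintype ι] (g : ι → ℤ → G) (hg : ∀ i, ∃ j, g i ∈ C.L j)
    (hg0 : ∀ i, g i ∉ C.L 0) (i₁ : ι) (hmin : ∀ i, C.wt (g i₁) ≤ C.wt (g i))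
    (U : Set X) (V : ι → Set X) (hV : ∀ i, IsOpen (V i))
    (N : ℕ) (h : ℕ → G) (m : ℕ → ℤ) (hN : 0 < N) (hcov : ∀ z : X, ∃ k < N, (h k)⁻¹ • z ∈ U)
    (hsel : ∀ i₀, ∀ l₀ < N, ∃ z : X, ∀ i, ∀ l < N,
      Rel (tw g h m i l) (tw g h m i₀ l₀) → tw g h m i l 0 • z ∈ V i)
    (hder : ∀ (κ : Type) [Fintype κ] (v : κ → ℤ → G),
      Multiset.IsDershowitzMannaLT (C.M v) (C.M g) → (∀ i, ∃ j, v i ∈ C.L j) →
      (∀ i, v i ∉ C.L 0) → (∀ i j, i ≠ j → v i * (v j)⁻¹ ∉ C.L 0) →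
      ∀ (U : Set X) (V : κ → Set X), IsOpen U → U.Nonempty → (∀ i, IsOpen (V i)) →
        (∀ i, (V i).Nonempty) → ∃ (n : ℤ) (x : X), x ∈ U ∧ ∀ i, v i n • x ∈ V i) :
    ∃ (n : ℤ) (x : X), x ∈ U ∧ ∀ i, g i n • x ∈ V i := by
  classical
  set u : ι × Fin N → ℤ → G := fun e => tw g h m e.1 e.2 with hu
  set V' : ι × Fin N → Set X := fun e => V e.1 with hV'
  have hV'o : ∀ e, IsOpen (V' e) := fun e => hV e.1
  set e₁ : ι × Fin N := (i₁, ⟨0, hN⟩) with he₁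
  have hCSn : ∀ e₀, (CS u V' e₀).Nonempty := by
    intro e₀
    obtain ⟨z, hz⟩ := hsel e₀.1 e₀.2 e₀.2.2
    refine ⟨u e₀ 0 • z, fun e he => ?_⟩
    rw [mul_smul, inv_smul_smul]
    exact hz e.1 e.2 e.2.2 he
  let s : Setoid (ι × Fin N) :=
    { r := fun e e' => Rel (u e) (u e')
      iseqv := ⟨fun e => Rel.refl _, fun hr => hr.symm, fun hr hr' => hr.trans hr'⟩ }
  set q₁ : Quotient s := Quotient.mk s e₁ with hq₁
  have hout : ∀ q : Quotient s, ∀ e, Quotient.mk s e = q → Rel (u e) (u q.out) := by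
    intro q e he
    have h1 : Quotient.mk s e = Quotient.mk s q.out := by rw [Quotient.out_eq]; exact he
    exact Quotient.exact h1
  have hmk : ∀ e e', Rel (u e) (u e') → Quotient.mk s e = Quotient.mk s e' := fun e e' hr =>
    Quotient.sound hr
  let _ : Fintype {q : Quotient s // q ≠ q₁} := Fintype.ofFinite _
  set v : {q : Quotient s // q ≠ q₁} → ℤ → G := fun q => u q.1.out * (u e₁)⁻¹ with hv
  -- the members of the derived family
  have hwt : ∀ i, 1 ≤ C.wt (g i) := fun i => C.one_le_wt (hg i) (hg0 i)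
  have hA : ∀ e : ι × Fin N, u e * (g e.1)⁻¹ ∈ C.L (C.wt (g e.1) - 1) := fun e =>
    C.tw_mem g h m e.1 e.2 (hg e.1) (hg0 e.1)
  have hmu : ∀ e : ι × Fin N, u e ∈ C.L (C.wt (g e.1)) := by
    intro e
    have h1 := (C.L (C.wt (g e.1))).mul_mem (C.monotone (Nat.sub_le _ 1) (hA e))
      (C.mem_wt (hg e.1))
    rwa [inv_mul_cancel_right] at h1
  suffices hmain : Multiset.IsDershowitzMannaLT (C.M v) (C.M g) ∧ (∀ i, ∃ j, v i ∈ C.L j) ∧
      (∀ i, v i ∉ C.L 0) ∧ ∀ i j, i ≠ j → v i * (v j)⁻¹ ∉ C.L 0 by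
    obtain ⟨n, w, hw, hw'⟩ := hder _ v hmain.1 hmain.2.1 hmain.2.2.1 hmain.2.2.2 (CS u V' e₁)
      (fun q => CS u V' q.1.out)
      (CS_open u V' hV'o _) (hCSn _) (fun q => CS_open u V' hV'o _) (fun q => hCSn _)
    -- conclusion
    set z : X := (u e₁ n)⁻¹ • w with hz
    have hzw : u e₁ n • z = w := by rw [hz, smul_inv_smul]
    have key : ∀ e, u e n • z ∈ V' e := by
      intro e
      by_cases hq : Quotient.mk s e = q₁
      · have hr : Rel (u e) (u e₁) := Quotient.exact hq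
        have h1 := hw e hr
        rw [← hr.eq n 0, mul_smul] at h1
        exact h1
      · have hr := hout _ e rfl
        have h1 := hw' ⟨Quotient.mk s e, hq⟩
        have h2 : v ⟨Quotient.mk s e, hq⟩ n • w = u (Quotient.mk s e).out n • z := by
          show (u (Quotient.mk s e).out n * (u e₁ n)⁻¹) • w = _
          rw [mul_smul]
        rw [h2] at h1
        have h3 := h1 e hr
        have h4 : (u e 0 * (u (Quotient.mk s e).out 0)⁻¹) • u (Quotient.mk s e).out n • z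
            = u e n • z := by
          rw [← hr.eq n 0, mul_smul, inv_smul_smul]
        rwa [h4] at h3
    obtain ⟨k, hk, hkU⟩ := hcov z
    refine ⟨n + m k, (h k)⁻¹ • z, hkU, fun i => ?_⟩
    have h1 := key (i, ⟨k, hk⟩)
    have h2 : u (i, ⟨k, hk⟩) n = g i (n + m k) * (h k)⁻¹ := rfl
    rw [h2, mul_smul] at h1
    exact h1
  refine ⟨?_, ?_, ?_, ?_⟩
  · -- the measure decreases
    refine C.dm g v i₁ hg hg0 hmin fun q => ⟨(q.1.out).1, ?_⟩
    set e := q.1.out with he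
    obtain ⟨w, hw'⟩ : ∃ w, C.wt (g e.1) = w + 1 := ⟨C.wt (g e.1) - 1, by have := hwt e.1; omega⟩
    have h1 := hA e
    have h2 : u e₁ * (g i₁)⁻¹ ∈ C.L (C.wt (g e.1) - 1) :=
      C.monotone (Nat.sub_le_sub_right (hmin e.1) 1) (hA e₁)
    rw [hw', Nat.add_sub_cancel] at h1 h2 ⊢
    have hge : g e.1 ∈ C.L (w + 1) := hw' ▸ C.mem_wt (hg e.1)
    have hg1 : g i₁ ∈ C.L (w + 1) :=
      C.monotone (by have := hmin e.1; omega) (C.mem_wt (hg i₁))
    have h3 := (C.L w).mul_mem h1 (C.conj ((C.L (w + 1)).mul_mem hge ((C.L (w + 1)).inv_mem hg1))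
      ((C.L w).inv_mem h2))
    have h4 : u e * (u e₁)⁻¹ * (g e.1 * (g i₁)⁻¹)⁻¹ = u e * (g e.1)⁻¹ *
        (g e.1 * (g i₁)⁻¹ * (u e₁ * (g i₁)⁻¹)⁻¹ * (g e.1 * (g i₁)⁻¹)⁻¹) := by group
    show u e * (u e₁)⁻¹ * (g e.1 * (g i₁)⁻¹)⁻¹ ∈ C.L w
    rw [h4]
    exact h3
  · intro q
    refine ⟨max (C.wt (g (q.1.out).1)) (C.wt (g i₁)), ?_⟩
    exact Subgroup.mul_mem _ (C.monotone (le_max_left _ _) (hmu _))
      (Subgroup.inv_mem _ (C.monotone (le_max_right _ _) (hmu e₁)))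
  · intro q hq
    apply q.2
    have h1 : Rel (u q.1.out) (u e₁) := C.rel_iff.2 hq
    have h2 := hmk _ _ h1
    rwa [Quotient.out_eq] at h2
  · intro q q' hne hqq
    apply hne
    have h1 : v q * (v q')⁻¹ = u q.1.out * (u q'.1.out)⁻¹ := by
      show u q.1.out * (u e₁)⁻¹ * (u q'.1.out * (u e₁)⁻¹)⁻¹ = _
      group
    rw [h1] at hqq
    have h2 := hmk _ _ (C.rel_iff.2 hqq)
    rw [Quotient.out_eq, Quotient.out_eq] at h2
    exact Subtype.ext h2

/-- Part E: the PET theorem. -/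
theorem pet [Group.IsNilpotent G] [CompactSpace X] [T2Space X] [Nontrivial X]
    [MulAction.IsMinimal G X] (C : SChain G) (hWM : ∀ a : G, a ≠ 1 → WM X a) (M : Multiset ℕ) :
    ∀ (ι : Type) [Fintype ι] (g : ι → ℤ → G), C.M g = M → (∀ i, ∃ j, g i ∈ C.L j) →
      (∀ i, g i ∉ C.L 0) → (∀ i j, i ≠ j → g i * (g j)⁻¹ ∉ C.L 0) →
      ∀ (U : Set X) (V : ι → Set X), IsOpen U → U.Nonempty → (∀ i, IsOpen (V i)) →
        (∀ i, (V i).Nonempty) → ∃ (n : ℤ) (x : X), x ∈ U ∧ ∀ i, g i n • x ∈ V i := by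
  classical
  have wf : WellFounded (Multiset.IsDershowitzMannaLT (α := ℕ)) :=
    Multiset.wellFounded_isDershowitzMannaLT
  have htf : ∀ a : G, a ≠ 1 → ∀ s : ℤ, s ≠ 0 → a ^ s ≠ 1 := fun a ha s hs =>
    (hWM a ha).zpow_ne_one hs
  induction M using wf.induction with
  | _ M IH =>
  intro ι _ g hM hg hg0 hgg U V hU hU' hV hV'
  by_cases hι : IsEmpty ι
  · obtain ⟨x, hx⟩ := hU'
    exact ⟨0, x, hx, fun i => hι.elim i⟩
  rw [not_isEmpty_iff] at hι
  obtain ⟨i₁, -, hmin⟩ := Finset.exists_min_image Finset.univ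
    (fun i => C.wt (g i)) Finset.univ_nonempty
  obtain ⟨N, h, hN, hcov⟩ := cover (G := G) hU hU'
  obtain ⟨t, a, ht, ha⟩ := common_period g
  have hlinWM : ∀ i : {i // Lin (g i)}, WM X (a i.1) := by
    intro i
    refine hWM _ fun h1 => hg0 i.1 ?_
    obtain ⟨j, hj⟩ := hg i.1
    refine C.periodic htf j _ hj t ht.ne' fun n => ?_
    rw [ha i.1 i.2 n, h1, one_mul]
  obtain ⟨m, hm⟩ := select g h (fun i j hr => by
      by_contra hne
      exact hgg i j hne (C.rel_iff.1 hr)) t a ht.ne' ha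
    (fun A B hA hA' hB hB' F hF => joint_ret (fun i => a i.1) hlinWM A B hA hA' hB hB' F hF)
    V hV hV' N
  refine pet_step C g hg hg0 i₁ (fun i => hmin i (Finset.mem_univ i)) U V hV N h m hN hcov hm ?_
  intro κ _ v hlt hv hv0 hvv U V hU hU' hV hV'
  rw [hM] at hlt
  exact IH _ hlt κ v rfl hv hv0 hvv U V hU hU' hV hV'

end Pool.Agent.W_cae956_h7
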