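import Pool.Agent.W_cae956_h7.Unif
import Pool.Agent.W_MP_cae956.Dyn

/-!
MP_cae956_an, proofs row 562, (C2), (C3): return times of elements of a nilpotent group acting
minimally.  The sets `Synd`, `TS` of integers and their lemmas are those of `W_MP_cae956/Dyn.lean`
(qualify: `W_MP_cae956.Ret`, `W_MP_cae956.WM` are the additive versions).
-/

set_option autoImplicit false

open scoped Pointwise

namespace Pool.Agent.W_cae956_h7

open Pool.Agent.W_MP_cae956 (Synd TS)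

variable {G X : Type*} [Group G] [TopologicalSpace X] [MulAction G X] [ContinuousConstSMul G X]

theorem WM.trans {a : G} (ha : WM X a) : Tra X a := by
  intro U V hU hU' hV hV'
  obtain ⟨n, hn, -⟩ := ha U V U V hU hU' hV hV' hU hU' hV hV'
  exact ⟨n, hn⟩

private theorem Ret_isOpen_pre (b : G) {U : Set X} (hU : IsOpen U) :
    IsOpen {x : X | b • x ∈ U} :=
  hU.preimage (continuous_const_smul b)

theorem WM.inter {a : G} (ha : WM X a) {U₁ V₁ U₂ V₂ : Set X} (hU₁ : IsOpen U₁)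
    (hU₁' : U₁.Nonempty) (hV₁ : IsOpen V₁) (hV₁' : V₁.Nonempty) (hU₂ : IsOpen U₂)
    (hU₂' : U₂.Nonempty) (hV₂ : IsOpen V₂) (hV₂' : V₂.Nonempty) :
    ∃ U V : Set X, IsOpen U ∧ U.Nonempty ∧ IsOpen V ∧ V.Nonempty ∧
      Ret a U V ⊆ Ret a U₁ V₁ ∩ Ret a U₂ V₂ := by
  obtain ⟨n, ⟨x, hx, hx'⟩, ⟨y, hy, hy'⟩⟩ := ha U₁ U₂ V₁ V₂ hU₁ hU₁' hU₂ hU₂' hV₁ hV₁' hV₂ hV₂'
  refine ⟨U₁ ∩ {x | a ^ n • x ∈ U₂}, V₁ ∩ {x | a ^ n • x ∈ V₂}, hU₁.inter (Ret_isOpen_pre _ hU₂),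
    ⟨x, hx, hx'⟩, hV₁.inter (Ret_isOpen_pre _ hV₂), ⟨y, hy, hy'⟩, ?_⟩
  rintro m ⟨z, ⟨hz1, hz2⟩, hz3, hz4⟩
  refine ⟨⟨z, hz1, hz3⟩, ⟨a ^ n • z, hz2, ?_⟩⟩
  rw [smul_smul, ← zpow_add, add_comm, zpow_add, ← smul_smul]
  exact hz4

theorem WM.translate {a : G} (ha : WM X a) {U V : Set X} (hU : IsOpen U)
    (hU' : U.Nonempty) (hV : IsOpen V) (hV' : V.Nonempty) (E : Finset ℤ) :
    ∃ U' V' : Set X, IsOpen U' ∧ U'.Nonempty ∧ IsOpen V' ∧ V'.Nonempty ∧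
      Ret a U' V' ⊆ {m | ∀ e ∈ E, m + e ∈ Ret a U V} := by
  classical
  induction E using Finset.induction_on with
  | empty => exact ⟨U, V, hU, hU', hV, hV', by simp⟩
  | insert e E he ih =>
    obtain ⟨U', V', h1, h2, h3, h4, h5⟩ := ih
    have h6 : ({x | a ^ e • x ∈ V} : Set X).Nonempty := by
      obtain ⟨v, hv⟩ := hV'
      exact ⟨(a ^ e)⁻¹ • v, by simpa using hv⟩
    obtain ⟨U'', V'', h1', h2', h3', h4', h5'⟩ :=
      ha.inter h1 h2 h3 h4 hU hU' (Ret_isOpen_pre (a ^ e) hV) h6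
    refine ⟨U'', V'', h1', h2', h3', h4', fun m hm e' he' => ?_⟩
    rcases Finset.mem_insert.1 he' with rfl | he'
    · obtain ⟨x, hx, hx'⟩ := (h5' hm).2
      refine ⟨x, hx, ?_⟩
      rw [add_comm, zpow_add, ← smul_smul]
      exact hx'
    · exact h5 (h5' hm).1 e' he'

/-- A transitive element of a nontrivial space is not the identity. -/
theorem Tra.ne_one [T2Space X] [Nontrivial X] {a : G} (ha : Tra X a) : a ≠ 1 := by
  rintro rfl
  obtain ⟨x, y, hxy⟩ := exists_pair_ne X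
  obtain ⟨P, Q, hP, hQ, hx, hy, hd⟩ := t2_separation hxy
  obtain ⟨n, z, hz, hz'⟩ := ha P Q hP ⟨x, hx⟩ hQ ⟨y, hy⟩
  rw [one_zpow, one_smul] at hz'
  exact Set.disjoint_left.1 hd hz hz'

/-- Weakly mixing elements have infinite order. -/
theorem WM.zpow_ne_one [T2Space X] [Nontrivial X] {a : G} (ha : WM X a) {s : ℤ} (hs : s ≠ 0) :
    a ^ s ≠ 1 := by
  classical
  intro h0
  obtain ⟨x, y, hxy⟩ := exists_pair_ne X
  obtain ⟨P, Q, hP, hQ, hx, hy, hd⟩ := t2_separation hxy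
  obtain ⟨U', V', h1, h2, h3, h4, h5⟩ := ha.translate hP ⟨x, hx⟩ hQ ⟨y, hy⟩
    ((Finset.range s.natAbs).image fun k : ℕ => (k : ℤ))
  obtain ⟨m, hm⟩ := ha.trans _ _ h1 h2 h3 h4
  have h6 := h5 hm
  -- a multiple of `s` of the form `m + k`
  have hspos : (0 : ℤ) < (s.natAbs : ℤ) := by
    have := Int.natAbs_pos.2 hs
    exact_mod_cast this
  have h7 := Int.emod_nonneg (-m) hspos.ne'
  have h8 := Int.emod_lt_of_pos (-m) hspos
  obtain ⟨k, hk⟩ := Int.eq_ofNat_of_zero_le h7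
  have hk' : k < s.natAbs := by
    have : (k : ℤ) < (s.natAbs : ℤ) := by
      rw [← hk]
      exact h8
    exact_mod_cast this
  obtain ⟨z, hz, hz'⟩ := h6 (k : ℤ) (Finset.mem_image_of_mem _ (Finset.mem_range.2 hk'))
  have h9 : (s.natAbs : ℤ) ∣ m + k := by
    have h11 : (s.natAbs : ℤ) ∣ -m - (-m) % (s.natAbs : ℤ) := Int.dvd_self_sub_emod
    have h12 : m + k = -(-m - (-m) % (s.natAbs : ℤ)) := by
      rw [hk]
      ring
    rw [h12]
    exact (dvd_neg).2 h11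
  obtain ⟨q, hq⟩ := Int.natAbs_dvd.1 h9
  rw [hq, zpow_mul, h0, one_zpow, one_smul] at hz'
  exact Set.disjoint_left.1 hd hz hz'

/-- (C2): return times of transitive elements are syndetic. -/
theorem Synd_Ret [Group.IsNilpotent G] [CompactSpace X] [T2Space X] [Nontrivial X]
    [MulAction.IsMinimal G X] {b : G} (hb : Tra X b) {U V : Set X} (hU : IsOpen U)
    (hU' : U.Nonempty) (hV : IsOpen V) (hV' : V.Nonempty) : Synd (Ret b U V) := by
  classical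
  obtain ⟨I, hI⟩ := isCompact_univ.exists_finite_cover_smul G hU hU'
  have hcov : ∀ z : X, ∃ l : Fin I.card, z ∈ ((I.equivFin.symm l : I) : G) • U := by
    intro z
    obtain ⟨g, hg, hz⟩ := Set.mem_iUnion₂.1 (hI (Set.mem_univ z))
    exact ⟨I.equivFin ⟨g, hg⟩, by simpa using hz⟩
  obtain ⟨h, hh⟩ : ∃ h : Fin I.card → G, ∀ z : X, ∃ l, z ∈ h l • U := ⟨_, hcov⟩
  set γ : Fin I.card → ℤ → G := fun l m => h l * b ^ m * (h l)⁻¹ with hγdef
  have hγ : ∀ t, γ t ∉ (ucNC ℤ G).chain.L 0 := by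
    intro t ht
    obtain ⟨c, hc⟩ := ((ucNC ℤ G).mem_zero).1 ht
    have h0 := hc 0
    have h1 := hc 1
    simp only [hγdef, zpow_zero, mul_one, mul_inv_cancel, zpow_one] at h0 h1
    rw [← h0] at h1
    apply hb.ne_one
    have h2 : b = (h t)⁻¹ * (h t * b * (h t)⁻¹) * h t := by group
    rw [h2, h1]
    group
  set D : Fin I.card → ℕ → Set X := fun l n =>
    ⋃ j ∈ {j : ℤ | |j| ≤ (n : ℤ)}, {x : X | (b ^ j * (h l)⁻¹) • x ∈ V} with hDdef
  have hDmem : ∀ l n (x : X), x ∈ D l n ↔ ∃ j : ℤ, |j| ≤ (n : ℤ) ∧ (b ^ j * (h l)⁻¹) • x ∈ V := by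
    intro l n x
    simp only [hDdef, Set.mem_iUnion, Set.mem_ofPred_eq, exists_prop]
  have hDo : ∀ t n, IsOpen (D t n) := fun t n =>
    isOpen_biUnion fun j _ => Ret_isOpen_pre _ hV
  have hDm : ∀ t, Monotone (D t) := by
    intro t n n' hnn x hx
    obtain ⟨j, hj, hx'⟩ := (hDmem t n x).1 hx
    refine (hDmem t n' x).2 ⟨j, hj.trans ?_, hx'⟩
    exact_mod_cast hnn
  have hDd : ∀ t, Dense (⋃ n, D t n) := by
    intro t
    rw [dense_iff_inter_open]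
    intro O hO hO'
    obtain ⟨j, y, hy, hy'⟩ := hb ((h t)⁻¹ • O) V (hO.smul _) hO'.smul_set hV hV'
    obtain ⟨x, hx, rfl⟩ := Set.mem_smul_set.1 hy
    refine ⟨x, hx, Set.mem_iUnion.2 ⟨j.natAbs, (hDmem t _ x).2 ⟨j, ?_, ?_⟩⟩⟩
    · rw [Int.abs_eq_natAbs]
    · rw [← smul_smul]
      exact hy'
  have hne : (Set.univ : Set X).Nonempty := by
    obtain ⟨u, -⟩ := hU'
    exact ⟨u, trivial⟩
  obtain ⟨L, hL⟩ := unif γ hγ Set.univ D isOpen_univ hne hDo hDm hDd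
  refine ⟨Finset.Icc (-(L : ℤ)) L, fun m => ?_⟩
  obtain ⟨x, -, hx⟩ := hL m
  obtain ⟨l, hl⟩ := hh x
  obtain ⟨u, hu, rfl⟩ := Set.mem_smul_set.1 hl
  obtain ⟨j, hj, hj'⟩ := (hDmem l L _).1 (hx l)
  refine ⟨j, Finset.mem_Icc.2 (abs_le.1 hj), u, hu, ?_⟩
  have h3 : (b ^ j * (h l)⁻¹) • γ l m • h l • u = b ^ (m + j) • u := by
    rw [smul_smul, smul_smul, add_comm, zpow_add]
    congr 1
    simp only [hγdef]
    group
  rwa [h3] at hj'

/-- (C3). -/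
theorem TS_Ret [Group.IsNilpotent G] [CompactSpace X] [T2Space X] [Nontrivial X]
    [MulAction.IsMinimal G X] {b : G} (hb : WM X b) {U V : Set X} (hU : IsOpen U)
    (hU' : U.Nonempty) (hV : IsOpen V) (hV' : V.Nonempty) : TS (Ret b U V) := by
  intro E
  obtain ⟨U', V', h1, h2, h3, h4, h5⟩ := hb.translate hU hU' hV hV' E
  exact (Synd_Ret hb.trans h1 h2 h3 h4).mono h5

/-- Joint return times of finitely many weakly mixing elements. -/
theorem joint_ret [Group.IsNilpotent G] [CompactSpace X] [T2Space X] [Nontrivial X]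
    [MulAction.IsMinimal G X] {κ : Type} [Finite κ] (a : κ → G) (ha : ∀ k, WM X (a k))
    (A B : κ → Set X) (hA : ∀ k, IsOpen (A k)) (hA' : ∀ k, (A k).Nonempty)
    (hB : ∀ k, IsOpen (B k)) (hB' : ∀ k, (B k).Nonempty) (F : Set ℤ) (hF : F.Finite) :
    ∃ n : ℤ, n ∉ F ∧ ∀ k, n ∈ Ret (a k) (A k) (B k) := by
  classical
  cases nonempty_fintype κ
  have hTS : TS {m | ∀ i ∈ (Finset.univ : Finset κ), m ∈ Ret (a i) (A i) (B i)} :=
    TS.biInter _ _ fun i _ => TS_Ret (ha i) (hA i) (hA' i) (hB i) (hB' i)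
  obtain ⟨n, hn, hnB⟩ := hTS.exists_notMem hF.toFinset
  refine ⟨n, fun h => hnB ((hF.mem_toFinset).2 h), fun i => hn i (Finset.mem_univ i)⟩

end Pool.Agent.W_cae956_h7
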