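import Pool.Agent.W_cae956_h7.Filt
import Pool.Agent.W_cae956_h7.Ret

/-!
MP_cae956_an, proofs row 562, Part E: relation, linear sequences, choice of the shifts.
-/

set_option autoImplicit false
set_option linter.unusedSectionVars false

namespace Pool.Agent.W_cae956_h7

variable {G : Type*} [Group G]

/-- Two sequences differ by a constant factor on the left. -/
def Rel (u v : ℤ → G) : Prop := ∃ c : G, ∀ n, u n = c * v n

theorem Rel.refl (u : ℤ → G) : Rel u u := ⟨1, fun _ => (one_mul _).symm⟩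

theorem Rel.symm {u v : ℤ → G} (h : Rel u v) : Rel v u := by
  obtain ⟨c, hc⟩ := h
  exact ⟨c⁻¹, fun n => by rw [hc n, inv_mul_cancel_left]⟩

theorem Rel.trans {u v w : ℤ → G} (h : Rel u v) (h' : Rel v w) : Rel u w := by
  obtain ⟨c, hc⟩ := h
  obtain ⟨d, hd⟩ := h'
  exact ⟨c * d, fun n => by rw [hc n, hd n, mul_assoc]⟩

theorem Rel.eq {u v : ℤ → G} (h : Rel u v) (n k : ℤ) : u n * (v n)⁻¹ = u k * (v k)⁻¹ := by
  obtain ⟨c, hc⟩ := h
  rw [hc n, hc k, mul_inv_cancel_right, mul_inv_cancel_right]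

theorem rel_iff {u v : ℤ → G} : Rel u v ↔ ∃ c : G, ∀ n, u n * (v n)⁻¹ = c := by
  constructor
  · rintro ⟨c, hc⟩
    exact ⟨c, fun n => by rw [hc n, mul_inv_cancel_right]⟩
  · rintro ⟨c, hc⟩
    exact ⟨c, fun n => by rw [← hc n, inv_mul_cancel_right]⟩

/-- Sequences with `x (n + m) = a x n`, for some `m > 0`. -/
def Lin (x : ℤ → G) : Prop := ∃ m : ℤ, 0 < m ∧ Rel (sh m x) x

theorem lin_of_ne {x : ℤ → G} {m : ℤ} (hm : m ≠ 0) (h : Rel (sh m x) x) : Lin x := by
  rcases lt_or_gt_of_ne hm with h1 | h1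
  · obtain ⟨c, hc⟩ := h
    refine ⟨-m, by omega, c⁻¹, fun n => ?_⟩
    have h2 := hc (n - m)
    have h3 : x (n - m + m) = c * x (n - m) := h2
    rw [sub_add_cancel] at h3
    show x (n + -m) = c⁻¹ * x n
    rw [h3, inv_mul_cancel_left, sub_eq_add_neg]
  · exact ⟨m, h1, h⟩

theorem lin_iter {x : ℤ → G} {m : ℤ} {a : G} (h : ∀ n, x (n + m) = a * x n) (k n : ℤ) :
    x (n + m * k) = a ^ k * x n := by
  induction k using Int.induction_on with
  | zero => simp
  | succ i ih =>
    rw [show n + m * ((i : ℤ) + 1) = n + m * i + m by ring, h, ih, zpow_add_one, ← mul_assoc,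
      ← zpow_one_add, add_comm (1 : ℤ), zpow_add_one]
  | pred i ih =>
    have h1 := h (n + m * (-(i : ℤ) - 1))
    rw [show n + m * (-(i : ℤ) - 1) + m = n + m * -i by ring, ih] at h1
    rw [zpow_sub_one, mul_assoc]
    have h2 : a ^ (-(i : ℤ)) * x n = a * x (n + m * (-(i : ℤ) - 1)) := h1
    have h3 : x (n + m * (-(i : ℤ) - 1)) = a⁻¹ * (a ^ (-(i : ℤ)) * x n) := by
      rw [h2, inv_mul_cancel_left]
    rw [h3, ← mul_assoc, ← mul_assoc]
    congr 1
    rw [← zpow_neg_one, ← zpow_add, ← zpow_add, add_comm]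

/-- A common period for the linear members of a finite family. -/
theorem common_period {ι : Type} [Finite ι] (g : ι → ℤ → G) :
    ∃ (t : ℤ) (a : ι → G), 0 < t ∧ ∀ i, Lin (g i) → ∀ n, g i (n + t) = a i * g i n := by
  classical
  have : Fintype ι := Fintype.ofFinite ι
  have h1 : ∀ i, ∃ (m : ℤ) (a : G), 0 < m ∧ (Lin (g i) → ∀ n, g i (n + m) = a * g i n) := by
    intro i
    by_cases h : Lin (g i)
    · obtain ⟨m, hm, a, ha⟩ := h
      exact ⟨m, a, hm, fun _ => ha⟩
    · exact ⟨1, 1, one_pos, fun h' => absurd h' h⟩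
  choose m a hm ha using h1
  refine ⟨∏ i, m i, fun i => a i ^ (∏ j ∈ Finset.univ.erase i, m j), ?_, ?_⟩
  · exact Finset.prod_pos fun i _ => hm i
  · intro i hi n
    have h2 := lin_iter (ha i hi) (∏ j ∈ Finset.univ.erase i, m j) n
    rwa [Finset.mul_prod_erase _ _ (Finset.mem_univ i)] at h2

/-- The shifted family. -/
def tw {ι : Type} (g : ι → ℤ → G) (h : ℕ → G) (m : ℕ → ℤ) (i : ι) (l : ℕ) : ℤ → G :=
  fun n => g i (n + m l) * (h l)⁻¹

theorem tw_update {ι : Type} (g : ι → ℤ → G) (h : ℕ → G) (m : ℕ → ℤ) (N : ℕ) (s : ℤ) (i : ι)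
    {l : ℕ} (hl : l < N) : tw g h (Function.update m N s) i l = tw g h m i l := by
  unfold tw
  rw [Function.update_of_ne hl.ne]

theorem tw_update_self {ι : Type} (g : ι → ℤ → G) (h : ℕ → G) (m : ℕ → ℤ) (N : ℕ) (s : ℤ)
    (i : ι) : tw g h (Function.update m N s) i N = fun n => g i (n + s) * (h N)⁻¹ := by
  unfold tw
  rw [Function.update_self]

/-- At most one shift relates a non-linear sequence to a given one. -/
theorem bad_subsingleton {x v : ℤ → G} (hx : ¬ Lin x) {t : ℤ} (ht : t ≠ 0) (c : G) :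
    {k : ℤ | Rel (fun n => x (n + t * k) * c) v}.Subsingleton := by
  intro k hk k' hk'
  by_contra hne
  apply hx
  refine lin_of_ne (m := t * (k' - k)) (mul_ne_zero ht (sub_ne_zero.2 (Ne.symm hne))) ?_
  obtain ⟨d, hd⟩ := hk
  obtain ⟨d', hd'⟩ := hk'
  refine ⟨d' * d⁻¹, fun n => ?_⟩
  have h1 : x (n - t * k + t * k) * c = d * v (n - t * k) := hd (n - t * k)
  have h2 : x (n - t * k + t * k') * c = d' * v (n - t * k) := hd' (n - t * k)
  rw [sub_add_cancel] at h1
  show x (n + t * (k' - k)) = d' * d⁻¹ * x n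
  have h3 : n - t * k + t * k' = n + t * (k' - k) := by ring
  rw [h3] at h2
  have h4 : v (n - t * k) = d⁻¹ * (x n * c) := by rw [h1, inv_mul_cancel_left]
  rw [h4] at h2
  have h5 : x (n + t * (k' - k)) * c = d' * d⁻¹ * x n * c := by
    rw [h2]; group
  exact mul_right_cancel h5

variable {X : Type*} [TopologicalSpace X] [MulAction G X] [ContinuousConstSMul G X]

theorem isOpen_pre (b : G) {U : Set X} (hU : IsOpen U) : IsOpen {x | b • x ∈ U} :=
  hU.preimage (continuous_const_smul b)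

/-- (E2): choice of the shifts. -/
theorem select {ι : Type} [Finite ι] (g : ι → ℤ → G) (h : ℕ → G)
    (hne : ∀ i j, Rel (g i) (g j) → i = j) (t : ℤ) (a : ι → G) (ht : t ≠ 0)
    (hlin : ∀ i, Lin (g i) → ∀ n, g i (n + t) = a i * g i n)
    (hJR : ∀ A B : {i // Lin (g i)} → Set X, (∀ i, IsOpen (A i)) → (∀ i, (A i).Nonempty) →
      (∀ i, IsOpen (B i)) → (∀ i, (B i).Nonempty) → ∀ F : Set ℤ, F.Finite →
      ∃ n : ℤ, n ∉ F ∧ ∀ i, n ∈ Ret (a i.1) (A i) (B i))
    (V : ι → Set X) (hV : ∀ i, IsOpen (V i)) (hV' : ∀ i, (V i).Nonempty) (N : ℕ) :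
    ∃ m : ℕ → ℤ, ∀ i₀, ∀ l₀ < N, ∃ z : X, ∀ i, ∀ l < N,
      Rel (tw g h m i l) (tw g h m i₀ l₀) → tw g h m i l 0 • z ∈ V i := by
  classical
  induction N with
  | zero => exact ⟨fun _ => 0, fun i₀ l₀ hl => absurd hl (Nat.not_lt_zero _)⟩
  | succ N ih =>
    obtain ⟨m, hm⟩ := ih
    -- the bad set
    set F : Set ℤ := ⋃ i ∈ {i : ι | ¬ Lin (g i)}, ⋃ i' : ι, ⋃ l ∈ Finset.range N,
      {k : ℤ | Rel (fun n => g i (n + t * k) * (h N)⁻¹) (tw g h m i' l)} with hF
    have hFfin : F.Finite := by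
      rw [hF]
      refine Set.Finite.biUnion (Set.toFinite _) fun i hi => ?_
      refine Set.finite_iUnion fun i' => ?_
      refine Set.Finite.biUnion (Finset.finite_toSet _) fun l _ => ?_
      exact (bad_subsingleton hi ht _).finite
    -- the set of points for an old class
    set O : ι → ℕ → Set X := fun i' l' => {z | ∀ j, ∀ l < N,
      Rel (tw g h m j l) (tw g h m i' l') → tw g h m j l 0 • z ∈ V j} with hO
    have hOo : ∀ i' l', IsOpen (O i' l') := by
      intro i' l'
      have h1 : O i' l' = ⋂ j : ι, ⋂ l : Fin N, ⋂ _ : Rel (tw g h m j l) (tw g h m i' l'),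
          {z | tw g h m j l 0 • z ∈ V j} := by
        ext z
        simp only [hO, Set.mem_iInter]
        constructor
        · intro h2 j l hr
          exact h2 j l l.2 hr
        · intro h2 j l hl hr
          exact h2 j ⟨l, hl⟩ hr
      rw [h1]
      refine isOpen_iInter_of_finite fun j => isOpen_iInter_of_finite fun l =>
        isOpen_iInter_of_finite fun _ => ?_
      exact isOpen_pre _ (hV j)
    -- the sets for the linear members
    have hAex : ∀ i : {i // Lin (g i)}, ∃ A : Set X, IsOpen A ∧ A.Nonempty ∧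
        ((∃ i' l', l' < N ∧ Rel (fun n => g i.1 n * (h N)⁻¹) (tw g h m i' l')) →
          ∃ i' l', l' < N ∧ Rel (fun n => g i.1 n * (h N)⁻¹) (tw g h m i' l') ∧
            ∀ x ∈ A, (g i.1 0 * (h N)⁻¹)⁻¹ • x ∈ O i' l') := by
      intro i
      by_cases hex : ∃ i' l', l' < N ∧ Rel (fun n => g i.1 n * (h N)⁻¹) (tw g h m i' l')
      · obtain ⟨i', l', hl', hr⟩ := hex
        refine ⟨{x | (g i.1 0 * (h N)⁻¹)⁻¹ • x ∈ O i' l'}, isOpen_pre _ (hOo _ _), ?_,
          fun _ => ⟨i', l', hl', hr, fun x hx => hx⟩⟩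
        obtain ⟨z, hz⟩ := hm i' l' hl'
        refine ⟨(g i.1 0 * (h N)⁻¹) • z, ?_⟩
        show (g i.1 0 * (h N)⁻¹)⁻¹ • (g i.1 0 * (h N)⁻¹) • z ∈ O i' l'
        rw [inv_smul_smul]
        exact hz
      · exact ⟨V i.1, hV _, hV' _, fun h => absurd h hex⟩
    choose A hAo hAn hA using hAex
    obtain ⟨k, hkF, hk⟩ := hJR A (fun i => V i.1) hAo hAn (fun i => hV _) (fun i => hV' _) F hFfin
    refine ⟨Function.update m N (t * k), ?_⟩
    have hnew : ∀ i, tw g h (Function.update m N (t * k)) i N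
        = fun n => g i (n + t * k) * (h N)⁻¹ := tw_update_self g h m N (t * k)
    have hold : ∀ i l, l < N → tw g h (Function.update m N (t * k)) i l = tw g h m i l :=
      fun i l hl => tw_update g h m N (t * k) i hl
    -- new elements are not related to each other
    have hnn : ∀ i j, Rel (tw g h (Function.update m N (t * k)) i N)
        (tw g h (Function.update m N (t * k)) j N) → i = j := by
      intro i j hr
      rw [hnew, hnew] at hr
      obtain ⟨c, hc⟩ := hr
      refine hne i j ⟨c, fun n => ?_⟩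
      have h1 : g i (n - t * k + t * k) * (h N)⁻¹ = c * (g j (n - t * k + t * k) * (h N)⁻¹) :=
        hc (n - t * k)
      rw [sub_add_cancel, ← mul_assoc] at h1
      exact mul_right_cancel h1
    -- a new element related to an old one is linear
    have hlin' : ∀ i i' l', l' < N → Rel (tw g h (Function.update m N (t * k)) i N)
        (tw g h m i' l') → Lin (g i) := by
      intro i i' l' hl' hr
      by_contra hcon
      apply hkF
      rw [hnew] at hr
      simp only [hF, Set.mem_iUnion]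
      exact ⟨i, hcon, i', l', Finset.mem_range.2 hl', hr⟩
    have hind : ∀ i, Lin (g i) → Rel (tw g h (Function.update m N (t * k)) i N)
        (fun n => g i n * (h N)⁻¹) := by
      intro i hi
      rw [hnew]
      refine ⟨a i ^ k, fun n => ?_⟩
      show g i (n + t * k) * (h N)⁻¹ = a i ^ k * (g i n * (h N)⁻¹)
      rw [lin_iter (hlin i hi) k n, mul_assoc]
    -- the good point for a new element related to an old one
    have hgood : ∀ i i' l', l' < N → Rel (tw g h (Function.update m N (t * k)) i N)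
        (tw g h m i' l') → ∃ z : X, tw g h (Function.update m N (t * k)) i N 0 • z ∈ V i ∧
          ∀ j, ∀ l < N, Rel (tw g h m j l) (tw g h (Function.update m N (t * k)) i N) →
            tw g h m j l 0 • z ∈ V j := by
      intro i i' l' hl' hr
      have hi := hlin' i i' l' hl' hr
      obtain ⟨i₁, l₁, hl₁, hr₁, hA₁⟩ := hA ⟨i, hi⟩ ⟨i', l', hl', (hind i hi).symm.trans hr⟩
      obtain ⟨x, hx, hx'⟩ := hk ⟨i, hi⟩
      refine ⟨(g i 0 * (h N)⁻¹)⁻¹ • x, ?_, fun j l hl hr' => ?_⟩
      · rw [hnew]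
        show (g i (0 + t * k) * (h N)⁻¹) • (g i 0 * (h N)⁻¹)⁻¹ • x ∈ V i
        rw [lin_iter (hlin i hi) k 0, mul_assoc, mul_smul, smul_inv_smul]
        exact hx'
      · exact hA₁ x hx j l hl (hr'.trans ((hind i hi).trans hr₁))
    intro i₀ l₀ hl₀
    by_cases hcase : ∃ i, Rel (tw g h (Function.update m N (t * k)) i N)
        (tw g h (Function.update m N (t * k)) i₀ l₀) ∧
        ∃ i' l', l' < N ∧ Rel (tw g h (Function.update m N (t * k)) i N) (tw g h m i' l')
    · obtain ⟨i, hi, i', l', hl', hr⟩ := hcase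
      obtain ⟨z, hz1, hz2⟩ := hgood i i' l' hl' hr
      refine ⟨z, fun j l hl hr' => ?_⟩
      rcases Nat.lt_succ_iff_lt_or_eq.1 hl with hl | rfl
      · rw [hold j l hl] at hr' ⊢
        exact hz2 j l hl (hr'.trans hi.symm)
      · have hji := hnn j i (hr'.trans hi.symm)
        rw [hji]
        exact hz1
    · rcases Nat.lt_succ_iff_lt_or_eq.1 hl₀ with hl₀ | rfl
      · obtain ⟨z, hz⟩ := hm i₀ l₀ hl₀
        refine ⟨z, fun j l hl hr' => ?_⟩
        rcases Nat.lt_succ_iff_lt_or_eq.1 hl with hl | rfl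
        · rw [hold j l hl] at hr' ⊢
          rw [hold i₀ l₀ hl₀] at hr'
          exact hz j l hl hr'
        · exfalso
          apply hcase
          refine ⟨j, hr', i₀, l₀, hl₀, ?_⟩
          rw [hold i₀ l₀ hl₀] at hr'
          exact hr'
      · obtain ⟨v, hv⟩ := hV' i₀
        refine ⟨(tw g h (Function.update m l₀ (t * k)) i₀ l₀ 0)⁻¹ • v, fun j l hl hr' => ?_⟩
        rcases Nat.lt_succ_iff_lt_or_eq.1 hl with hl | rfl
        · exfalso
          apply hcase
          refine ⟨i₀, Rel.refl _, j, l, hl, ?_⟩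
          rw [hold j l hl] at hr'
          exact hr'.symm
        · have hji := hnn j i₀ hr'
          rw [hji, smul_inv_smul]
          exact hv

end Pool.Agent.W_cae956_h7
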