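import Pool.Agent.W_cae956_h7.Defs

/-!
MP_cae956_an, proofs row 562, Part C: uniform density (C1).
-/

set_option autoImplicit false

open scoped Pointwise

namespace Pool.Agent.W_cae956_h7

variable {G : Type*} [Group G]

/-- Chain 1: functions with values in the upper central series, up to constants. -/
def ucNC (Ω G : Type*) [Group G] : NC Ω G where
  N := fun j =>
    { carrier := {x | ∀ ω, x ω ∈ Subgroup.upperCentralSeries G j}
      mul_mem' := fun hx hy ω => mul_mem (hx ω) (hy ω)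
      one_mem' := fun ω => one_mem _
      inv_mem' := fun hx ω => inv_mem (hx ω) }
  zero := by
    refine (Subgroup.eq_bot_iff_forall _).2 fun x hx => funext fun ω => ?_
    exact Subgroup.mem_bot.1 (hx ω)
  mono := fun j x hx ω => Subgroup.upperCentralSeries_mono G (Nat.le_succ j) (hx ω)
  cc := fun j x hx y _ ω => (Subgroup.mem_upperCentralSeries_succ_iff.1 (hx ω)) (y ω)
  ck := fun j x hx c ω => (Subgroup.mem_upperCentralSeries_succ_iff.1 (hx ω)) c

/-- Everything is in the chain if `G` is nilpotent. -/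
theorem ucNC_top (Ω : Type*) [Group.IsNilpotent G] :
    ∃ j, ∀ x : Ω → G, x ∈ (ucNC Ω G).chain.L j := by
  obtain ⟨n, hn⟩ := Group.IsNilpotent.nilpotent G
  refine ⟨n, fun x => ⟨1, fun ω => ?_⟩⟩
  rw [hn]
  exact Subgroup.mem_top _

variable {X : Type*} [TopologicalSpace X] [MulAction G X] [ContinuousConstSMul G X]

/-- Open sets increasing to a dense set, finitely many translates. -/
theorem common_level {κ : Type} [Finite κ] (k : κ → G) (D : κ → ℕ → Set X)
    (hDo : ∀ e n, IsOpen (D e n)) (hDm : ∀ e, Monotone (D e))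
    (hDd : ∀ e, Dense (⋃ n, D e n)) (O : Set X) (hO : IsOpen O) (hO' : O.Nonempty) :
    ∃ n, (O ∩ ⋂ e, {x | k e • x ∈ D e n}).Nonempty := by
  classical
  have key : ∀ s : Finset κ, ∃ n, (O ∩ ⋂ e ∈ s, {x | k e • x ∈ D e n}).Nonempty := by
    intro s
    induction s using Finset.induction_on with
    | empty =>
      refine ⟨0, ?_⟩
      obtain ⟨x, hx⟩ := hO'
      exact ⟨x, hx, by simp⟩
    | insert a s _ ih =>
      obtain ⟨n, hn⟩ := ih
      have hopen : IsOpen (O ∩ ⋂ e ∈ s, {x | k e • x ∈ D e n}) := by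
        refine hO.inter (isOpen_biInter_finset fun e _ => ?_)
        exact (hDo e n).preimage (continuous_const_smul (k e))
      have h1 : IsOpen (k a • (O ∩ ⋂ e ∈ s, {x | k e • x ∈ D e n})) := hopen.smul (k a)
      obtain ⟨y, hy1, hy2⟩ := (hDd a).inter_open_nonempty _ h1 (hn.smul_set)
      obtain ⟨m, hm⟩ := Set.mem_iUnion.1 hy2
      obtain ⟨x, hx, rfl⟩ := Set.mem_smul_set.1 hy1
      refine ⟨max n m, x, hx.1, ?_⟩
      refine Set.mem_iInter₂.2 fun e he => ?_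
      rcases Finset.mem_insert.1 he with rfl | he'
      · exact hDm _ (le_max_right n m) hm
      · exact hDm e (le_max_left n m) (Set.mem_iInter₂.1 hx.2 e he')
  cases nonempty_fintype κ
  obtain ⟨n, x, hx, hx'⟩ := key Finset.univ
  refine ⟨n, x, hx, Set.mem_iInter.2 fun e => ?_⟩
  exact Set.mem_iInter₂.1 hx' e (Finset.mem_univ e)

private theorem unif_aux [Group.IsNilpotent G] [CompactSpace X] [MulAction.IsMinimal G X]
    {Ω : Type} (M : Multiset ℕ) :
    ∀ (ι : Type) (_ : Fintype ι) (γ : ι → Ω → G), (ucNC Ω G).chain.M γ = M →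
    (∀ t, γ t ∉ (ucNC Ω G).chain.L 0) →
    ∀ (O : Set X) (D : ι → ℕ → Set X), IsOpen O → O.Nonempty →
    (∀ t n, IsOpen (D t n)) → (∀ t, Monotone (D t)) → (∀ t, Dense (⋃ n, D t n)) →
    ∃ n, ∀ ω, ∃ x ∈ O, ∀ t, γ t ω • x ∈ D t n := by
  have hwf : WellFounded (Multiset.IsDershowitzMannaLT : Multiset ℕ → Multiset ℕ → Prop) :=
    Multiset.wellFounded_isDershowitzMannaLT
  induction M using hwf.induction with
  | _ M ih =>
    intro ι _ γ hM hγ O D hO hO' hDo hDm hDd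
    classical
    rcases isEmpty_or_nonempty ι with hι | hι
    · obtain ⟨x, hx⟩ := hO'
      exact ⟨0, fun ω => ⟨x, hx, fun t => hι.elim t⟩⟩
    obtain ⟨t₁, ht₁⟩ := Finite.exists_min fun t => (ucNC Ω G).chain.wt (γ t)
    obtain ⟨I, hI⟩ := isCompact_univ.exists_finite_cover_smul G hO hO'
    have hcov : ∀ z : X, ∃ l : Fin I.card, z ∈ ((I.equivFin.symm l : I) : G) • O := by
      intro z
      obtain ⟨g, hg, hz⟩ := Set.mem_iUnion₂.1 (hI (Set.mem_univ z))
      exact ⟨I.equivFin ⟨g, hg⟩, by simpa using hz⟩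
    obtain ⟨h, hh⟩ : ∃ h : Fin I.card → G, ∀ z : X, ∃ l, z ∈ h l • O := ⟨_, hcov⟩
    obtain ⟨x₀, hx₀⟩ := hO'
    obtain ⟨l₁, -⟩ := hh x₀
    set γ' : ι × Fin I.card → Ω → G := fun e =>
      γ e.1 * (fun _ => (h e.2)⁻¹ * h l₁) * (γ t₁)⁻¹ with hγ'
    have hval : ∀ e ω, γ' e ω = γ e.1 ω * ((h e.2)⁻¹ * h l₁) * (γ t₁ ω)⁻¹ := fun e ω => rfl
    -- the constant ones
    have hconst : ∀ e : {e // γ' e ∈ (ucNC Ω G).chain.L 0}, ∃ c : G, ∀ ω, γ' e.1 ω = c :=
      fun e => ((ucNC Ω G).mem_zero).1 e.2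
    choose k hk using hconst
    obtain ⟨n₀, hn₀⟩ := common_level (X := X) k (fun e n => D e.1.1 n) (fun e n => hDo _ n)
      (fun e => hDm _) (fun e => hDd _) Set.univ isOpen_univ ⟨x₀, trivial⟩
    set O' : Set X := Set.univ ∩ ⋂ e, {x | k e • x ∈ D e.1.1 n₀} with hO'def
    have hO'o : IsOpen O' := isOpen_univ.inter (isOpen_iInter_of_finite fun e =>
      (hDo e.1.1 n₀).preimage (continuous_const_smul (k e)))
    -- the nonconstant ones
    have hlt : Multiset.IsDershowitzMannaLT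
        ((ucNC Ω G).chain.M fun e : {e // γ' e ∉ (ucNC Ω G).chain.L 0} => γ' e.1) M := by
      rw [← hM]
      refine (ucNC Ω G).chain.dm γ _ t₁ (fun i => ?_) hγ ht₁ ?_
      · obtain ⟨j, hj⟩ := ucNC_top (G := G) Ω
        exact ⟨j, hj _⟩
      · intro e
        refine ⟨e.1.1, ?_⟩
        have hw : 1 ≤ (ucNC Ω G).chain.wt (γ e.1.1) := by
          refine (ucNC Ω G).chain.one_le_wt ?_ (hγ _)
          obtain ⟨j, hj⟩ := ucNC_top (G := G) Ω
          exact ⟨j, hj _⟩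
        obtain ⟨w, hw'⟩ : ∃ w, (ucNC Ω G).chain.wt (γ e.1.1) = w + 1 :=
          ⟨(ucNC Ω G).chain.wt (γ e.1.1) - 1, by omega⟩
        rw [hw', Nat.add_sub_cancel]
        have e1 : γ' e.1 * (γ e.1.1 * (γ t₁)⁻¹)⁻¹
            = γ e.1.1 * (fun _ => (h e.1.2)⁻¹ * h l₁) * (γ e.1.1)⁻¹ := by
          simp only [hγ']
          group
        have goal2 : γ e.1.1 * (fun _ => (h e.1.2)⁻¹ * h l₁) * (γ e.1.1)⁻¹
            ∈ (ucNC Ω G).chain.L w := by
          refine (ucNC Ω G).chain.conj ?_ ?_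
          · rw [← hw']
            refine (ucNC Ω G).chain.mem_wt ?_
            obtain ⟨j, hj⟩ := ucNC_top (G := G) Ω
            exact ⟨j, hj _⟩
          · exact (ucNC Ω G).chain.monotone (Nat.zero_le w)
              (((ucNC Ω G).mem_zero).2 ⟨_, fun ω => rfl⟩)
        exact e1 ▸ goal2
    obtain ⟨n₁, hn₁⟩ := ih _ hlt {e // γ' e ∉ (ucNC Ω G).chain.L 0} inferInstance
      (fun e => γ' e.1) rfl (fun e => e.2) O' (fun e n => D e.1.1 n) hO'o hn₀
      (fun e n => hDo _ n) (fun e => hDm _) (fun e => hDd _)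
    refine ⟨max n₀ n₁, fun ω => ?_⟩
    obtain ⟨w, hw, hw2⟩ := hn₁ ω
    obtain ⟨l, hl⟩ := hh ((h l₁ * (γ t₁ ω)⁻¹) • w)
    obtain ⟨x, hx, hxe⟩ := Set.mem_smul_set.1 hl
    refine ⟨x, hx, fun t => ?_⟩
    have hx2 : x = (h l)⁻¹ • (h l₁ * (γ t₁ ω)⁻¹) • w := by
      rw [← hxe, inv_smul_smul]
    have hx3 : γ t ω • x = γ' (t, l) ω • w := by
      rw [hx2, hval, smul_smul, smul_smul]
      congr 1
      simp only [mul_assoc]
    rw [hx3]
    by_cases hc : γ' (t, l) ∈ (ucNC Ω G).chain.L 0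
    · have h1 := Set.mem_iInter.1 hw.2 ⟨(t, l), hc⟩
      have h2 := hk ⟨(t, l), hc⟩ ω
      refine hDm t (le_max_left n₀ n₁) ?_
      rw [h2]
      exact h1
    · exact hDm t (le_max_right n₀ n₁) (hw2 ⟨(t, l), hc⟩)

/-- (C1): induction on the measure `(ucNC Ω G).chain.M γ` with
`Multiset.wellFounded_isDershowitzMannaLT` and `Chain.dm`; the cover is
`isCompact_univ.exists_finite_cover_smul G hO hO'`. -/
theorem unif [Group.IsNilpotent G] [CompactSpace X] [MulAction.IsMinimal G X] {Ω : Type}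
    {ι : Type} [Fintype ι] (γ : ι → Ω → G) (hγ : ∀ t, γ t ∉ (ucNC Ω G).chain.L 0)
    (O : Set X) (D : ι → ℕ → Set X) (hO : IsOpen O) (hO' : O.Nonempty)
    (hDo : ∀ t n, IsOpen (D t n)) (hDm : ∀ t, Monotone (D t)) (hDd : ∀ t, Dense (⋃ n, D t n)) :
    ∃ n, ∀ ω, ∃ x ∈ O, ∀ t, γ t ω • x ∈ D t n :=
  unif_aux ((ucNC Ω G).chain.M γ) ι inferInstance γ rfl hγ O D hO hO' hDo hDm hDd

end Pool.Agent.W_cae956_h7
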